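import Pool.Agent.H38.FD.GB3

/-! MP_1f2761, k = 2: row GBD of board `fd` ((8.9): cells with a large phase sum). -/

namespace Pool.FD
open Finset Pool.K2

namespace GB

/-- the phase -/
noncomputable def pz (w s : ℕ) (k : ℤ × ℤ) (th : ℝ) (n a : ℕ) : ℝ :=
  th * (k.1 * ((n / 2 ^ (w - s) : ℕ) : ℝ) + k.2 * ((a / 2 ^ (w - s) : ℕ) : ℝ))

/-- the smoothed sum -/
noncomputable def Gt (w s : ℕ) (p : ℕ → ℕ → ℝ) (T Q : ℕ) (om : ℕ → ℕ → ℝ) (k : ℤ × ℤ) (y th x1 x2 : ℝ) : ℂ :=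
  ∑ n ∈ range (2 ^ w), ∑ a ∈ range (2 ^ w),
    (p n a * (omT (T * Q) (rf Q om) (x1 + y * n / T) (x2 + y * a / T) / c4) : ℝ) * ex (pz w s k th n a)

/-- error sum -/
noncomputable def Er (w : ℕ) (p : ℕ → ℕ → ℝ) (T Q : ℕ) (om : ℕ → ℕ → ℝ) (y x1 x2 : ℝ) : ℝ :=
  ∑ n ∈ range (2 ^ w), ∑ a ∈ range (2 ^ w), p n a * er (T * Q) (rf Q om)
    (fl (T * Q) ((T * Q : ℕ) * x1 + Q * (y * n))) (fl (T * Q) ((T * Q : ℕ) * x2 + Q * (y * a)))

/-- margin sum -/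
noncomputable def La (w : ℕ) (p : ℕ → ℕ → ℝ) (T G : ℕ) (om : ℕ → ℕ → ℝ) (y x1 x2 : ℝ) : ℝ :=
  ∑ n ∈ range (2 ^ w), ∑ a ∈ range (2 ^ w), p n a * Psi T G om
    (fl (T * G) ((T * G : ℕ) * x1 + G * (y * n))) (fl (T * G) ((T * G : ℕ) * x2 + G * (y * a)))

theorem norm_sum2 {w : ℕ} (F : ℕ → ℕ → ℝ) (e : ℕ → ℕ → ℝ) :
    ‖∑ n ∈ range (2 ^ w), ∑ a ∈ range (2 ^ w), (F n a : ℂ) * ex (e n a)‖ ≤
      ∑ n ∈ range (2 ^ w), ∑ a ∈ range (2 ^ w), |F n a| := by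
  refine (norm_sum_le _ _).trans (sum_le_sum fun n _ => ?_)
  refine (norm_sum_le _ _).trans (sum_le_sum fun a _ => ?_)
  rw [norm_mul, ex_norm, mul_one, Complex.norm_real, Real.norm_eq_abs]

theorem Gf_sub_Gt {w s T Q : ℕ} {p : ℕ → ℕ → ℝ} {om : ℕ → ℕ → ℝ} {k : ℤ × ℤ} {y th : ℝ} (hT : 0 < T) (hQ : 0 < Q)
    (hp : ∀ n a, 0 ≤ p n a) (x1 x2 : ℝ) :
    ‖Gf w s p T om k y th x1 x2 - Gt w s p T Q om k y th x1 x2‖ ≤ Er w p T Q om y x1 x2 := by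
  have hP : 0 < T * Q := Nat.mul_pos hT hQ
  have e1 : Gf w s p T om k y th x1 x2 - Gt w s p T Q om k y th x1 x2 =
      ∑ n ∈ range (2 ^ w), ∑ a ∈ range (2 ^ w),
        ((p n a * (om (fl T (T * x1 + y * n)) (fl T (T * x2 + y * a)) -
          omT (T * Q) (rf Q om) (x1 + y * n / T) (x2 + y * a / T) / c4) : ℝ) : ℂ) * ex (pz w s k th n a) := by
    unfold Gf Gt pz
    rw [← sum_sub_distrib]
    refine sum_congr rfl fun n _ => ?_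
    rw [← sum_sub_distrib]
    refine sum_congr rfl fun a _ => ?_
    push_cast
    ring
  rw [e1]
  refine (norm_sum2 _ _).trans ?_
  unfold Er
  refine sum_le_sum fun n _ => sum_le_sum fun a _ => ?_
  rw [abs_mul, abs_of_nonneg (hp n a)]
  apply mul_le_mul_of_nonneg_left _ (hp n a)
  have hTr : (T:ℝ) ≠ 0 := by exact_mod_cast hT.ne'
  have hQr : (Q:ℝ) ≠ 0 := by exact_mod_cast hQ.ne'
  have conv : ∀ (x : ℝ) (b : ℕ), fl T (T * x + y * b) = fl (T * Q) ((T * Q : ℕ) * x + Q * (y * b)) / Q := by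
    intro x b
    rw [← fl_div hT hQ]
    congr 2
    push_cast
    ring
  have conv2 : ∀ (x : ℝ) (b : ℕ), x + y * b / T = ((T * Q : ℕ) * x + Q * (y * b)) / ((T * Q : ℕ) : ℝ) := by
    intro x b
    push_cast
    field_simp
  have := omT_err hP (rf Q om) ((T * Q : ℕ) * x1 + Q * (y * n)) ((T * Q : ℕ) * x2 + Q * (y * a))
  rw [conv x1 n, conv x2 a, conv2 x1 n, conv2 x2 a]
  exact this

theorem Gf_near {w s T G : ℕ} {p : ℕ → ℕ → ℝ} {om : ℕ → ℕ → ℝ} {k : ℤ × ℤ} {y th : ℝ} (hT : 0 < T) (hG : 0 < G)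
    (hp : ∀ n a, 0 ≤ p n a) (h0 : ∀ a b, 0 ≤ om a b) {x1 x2 x1' x2' : ℝ}
    (h1 : ix (T * G) x1 = ix (T * G) x1') (h2 : ix (T * G) x2 = ix (T * G) x2') :
    ‖Gf w s p T om k y th x1 x2 - Gf w s p T om k y th x1' x2'‖ ≤ La w p T G om y x1' x2' := by
  have e1 : Gf w s p T om k y th x1 x2 - Gf w s p T om k y th x1' x2' =
      ∑ n ∈ range (2 ^ w), ∑ a ∈ range (2 ^ w),
        ((p n a * (om (fl T (T * x1 + y * n)) (fl T (T * x2 + y * a)) -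
          om (fl T (T * x1' + y * n)) (fl T (T * x2' + y * a))) : ℝ) : ℂ) * ex (pz w s k th n a) := by
    unfold Gf pz
    rw [← sum_sub_distrib]
    refine sum_congr rfl fun n _ => ?_
    rw [← sum_sub_distrib]
    refine sum_congr rfl fun a _ => ?_
    push_cast
    ring
  rw [e1]
  refine (norm_sum2 _ _).trans ?_
  unfold La
  refine sum_le_sum fun n _ => sum_le_sum fun a _ => ?_
  rw [abs_mul, abs_of_nonneg (hp n a)]
  apply mul_le_mul_of_nonneg_left _ (hp n a)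
  exact near hT hG h0 h1 h2 (y * n) (y * a)

theorem Gt_eq {w s T Q : ℕ} {p : ℕ → ℕ → ℝ} {om : ℕ → ℕ → ℝ} {k : ℤ × ℤ} {y th : ℝ} (hT : 0 < T) (hQ : 0 < Q)
    (x1 x2 : ℝ) :
    Gt w s p T Q om k y th x1 x2 =
      ∑ m1 ∈ Ioo (-((T * Q : ℕ):ℤ)) (T * Q : ℕ), ∑ m2 ∈ Ioo (-((T * Q : ℕ):ℤ)) (T * Q : ℕ),
        (omh (T * Q) (rf Q om) m1 m2 * Ph w s p T k (m1, m2) y th / (c4 : ℂ)) * ex (m1 * x1 + m2 * x2) := by
  have hP : 0 < T * Q := Nat.mul_pos hT hQ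
  unfold Gt
  set B := Ioo (-((T * Q : ℕ):ℤ)) (T * Q : ℕ) with hB
  have e1 : ∀ n ∈ range (2 ^ w), ∀ a ∈ range (2 ^ w),
      (((p n a * (omT (T * Q) (rf Q om) (x1 + y * n / T) (x2 + y * a / T) / c4) : ℝ)) : ℂ) * ex (pz w s k th n a) =
      ∑ m1 ∈ B, ∑ m2 ∈ B, (omh (T * Q) (rf Q om) m1 m2 / (c4 : ℂ) * ex (m1 * x1 + m2 * x2)) *
        ((p n a : ℂ) * ex (y * (m1 * n + m2 * a) / T + pz w s k th n a)) := by
    intro n _ a _
    push_cast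
    rw [omT_eq hP, ← hB]
    rw [sum_div, mul_sum, sum_mul]
    refine sum_congr rfl fun m1 _ => ?_
    rw [sum_div, mul_sum, sum_mul]
    refine sum_congr rfl fun m2 _ => ?_
    have e2 : ex ((m1:ℝ) * (x1 + y * n / T) + m2 * (x2 + y * a / T)) * ex (pz w s k th n a) =
        ex (m1 * x1 + m2 * x2) * ex (y * (m1 * n + m2 * a) / T + pz w s k th n a) := by
      rw [← ex_add, ← ex_add]
      congr 1
      ring
    linear_combination (p n a : ℂ) * omh (T * Q) (rf Q om) m1 m2 / (c4:ℂ) * e2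
  rw [sum_congr rfl fun n hn => sum_congr rfl fun a ha => e1 n hn a ha]
  have e3 : ∀ n ∈ range (2 ^ w), ∑ a ∈ range (2 ^ w), ∑ m1 ∈ B, ∑ m2 ∈ B,
      (omh (T * Q) (rf Q om) m1 m2 / (c4 : ℂ) * ex (m1 * x1 + m2 * x2)) *
        ((p n a : ℂ) * ex (y * (m1 * n + m2 * a) / T + pz w s k th n a)) =
      ∑ m1 ∈ B, ∑ m2 ∈ B, ∑ a ∈ range (2 ^ w), (omh (T * Q) (rf Q om) m1 m2 / (c4 : ℂ) * ex (m1 * x1 + m2 * x2)) *
        ((p n a : ℂ) * ex (y * (m1 * n + m2 * a) / T + pz w s k th n a)) := by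
    intro n _
    rw [sum_comm]
    exact sum_congr rfl fun m1 _ => sum_comm
  rw [sum_congr rfl e3, sum_comm]
  refine sum_congr rfl fun m1 _ => ?_
  rw [sum_comm]
  refine sum_congr rfl fun m2 _ => ?_
  unfold Ph
  simp only [← mul_sum]
  unfold pz
  ring

theorem Gt_sq {w s T Q N : ℕ} {p : ℕ → ℕ → ℝ} {om : ℕ → ℕ → ℝ} {k : ℤ × ℤ} {y th : ℝ} (hT : 0 < T) (hQ : 0 < Q)
    (hN : 2 * (T * Q) ≤ N) :
    ∑ j1 ∈ range N, ∑ j2 ∈ range N, ‖Gt w s p T Q om k y th ((j1:ℝ) / N) ((j2:ℝ) / N)‖ ^ 2 =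
      (N:ℝ) ^ 2 * (F4f w s p T Q om k y th / c4 ^ 2) := by
  have hP : 0 < T * Q := Nat.mul_pos hT hQ
  simp only [Gt_eq hT hQ]
  rw [pbox2 hP hN (fun m1 m2 => omh (T * Q) (rf Q om) m1 m2 * Ph w s p T k (m1, m2) y th / (c4 : ℂ))]
  congr 1
  unfold F4f bx
  rw [sum_product, sum_div]
  refine sum_congr rfl fun m1 _ => ?_
  rw [sum_div]
  refine sum_congr rfl fun m2 _ => ?_
  rw [norm_div, norm_mul, Complex.norm_real, Real.norm_eq_abs, abs_of_pos c4_pos, div_pow, mul_pow]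

theorem Er_sum {w T Q M N : ℕ} {p : ℕ → ℕ → ℝ} {om : ℕ → ℕ → ℝ} {y : ℝ} (hT : 0 < T) (hQ : 0 < Q) (hM : 0 < M)
    (hN : N = (T * Q) * M) (hp : Wt w p) (h0 : ∀ a b, 0 ≤ om a b)
    (hm : ∑ V ∈ range T, ∑ a ∈ range T, om V a ≤ (T:ℝ) ^ 2) :
    ∑ j1 ∈ range N, ∑ j2 ∈ range N, Er w p T Q om y ((j1:ℝ) / N) ((j2:ℝ) / N) ≤
      (N:ℝ) ^ 2 * (14 * (Real.log Q + 5) / Q) := by
  have hP : 0 < T * Q := Nat.mul_pos hT hQ
  have hL : 0 ≤ Real.log Q := Real.log_natCast_nonneg _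
  have e1 : ∑ j1 ∈ range N, ∑ j2 ∈ range N, Er w p T Q om y ((j1:ℝ) / N) ((j2:ℝ) / N) =
      ∑ n ∈ range (2 ^ w), ∑ a ∈ range (2 ^ w), p n a * ∑ j1 ∈ range N, ∑ j2 ∈ range N, er (T * Q) (rf Q om)
        (fl (T * Q) ((T * Q : ℕ) * ((j1:ℝ) / N) + Q * (y * n))) (fl (T * Q) ((T * Q : ℕ) * ((j2:ℝ) / N) + Q * (y * a))) := by
    unfold Er
    have c1 : ∀ j1 ∈ range N, ∑ j2 ∈ range N, ∑ n ∈ range (2 ^ w), ∑ a ∈ range (2 ^ w), p n a * er (T * Q) (rf Q om)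
        (fl (T * Q) ((T * Q : ℕ) * ((j1:ℝ) / N) + Q * (y * n))) (fl (T * Q) ((T * Q : ℕ) * ((j2:ℝ) / N) + Q * (y * a))) =
        ∑ n ∈ range (2 ^ w), ∑ a ∈ range (2 ^ w), ∑ j2 ∈ range N, p n a * er (T * Q) (rf Q om)
        (fl (T * Q) ((T * Q : ℕ) * ((j1:ℝ) / N) + Q * (y * n))) (fl (T * Q) ((T * Q : ℕ) * ((j2:ℝ) / N) + Q * (y * a))) := by
      intro j1 _
      rw [sum_comm]
      exact sum_congr rfl fun n _ => sum_comm
    rw [sum_congr rfl c1, sum_comm]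
    refine sum_congr rfl fun n _ => ?_
    rw [sum_comm]
    refine sum_congr rfl fun a _ => ?_
    simp only [← mul_sum]
  rw [e1]
  have s1 : ∑ z1' ∈ range (T * Q), ∑ z2' ∈ range (T * Q), er (T * Q) (rf Q om) z1' z2' ≤
      2 * (7 * Q * (T:ℝ) ^ 2 * (Real.log Q + 5)) := by
    have a1 := er_sum_le (P := T * Q) (Q := Q) h0
    have a2 := hs_le hT hQ h0 hm
    linarith
  have s2 : ∀ n ∈ range (2 ^ w), ∀ a ∈ range (2 ^ w), p n a * ∑ j1 ∈ range N, ∑ j2 ∈ range N, er (T * Q) (rf Q om)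
        (fl (T * Q) ((T * Q : ℕ) * ((j1:ℝ) / N) + Q * (y * n))) (fl (T * Q) ((T * Q : ℕ) * ((j2:ℝ) / N) + Q * (y * a))) ≤
        p n a * ((M:ℝ) ^ 2 * (2 * (7 * Q * (T:ℝ) ^ 2 * (Real.log Q + 5)))) := by
    intro n _ a _
    rw [eq2 hP hM hN (er (T * Q) (rf Q om)) (Q * (y * n)) (Q * (y * a))]
    exact mul_le_mul_of_nonneg_left (mul_le_mul_of_nonneg_left s1 (by positivity)) (hp.1 n a)
  refine (sum_le_sum fun n hn => sum_le_sum fun a ha => s2 n hn a ha).trans ?_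
  simp only [← sum_mul]
  have hX : 0 ≤ (M:ℝ) ^ 2 * (2 * (7 * Q * (T:ℝ) ^ 2 * (Real.log Q + 5))) := by positivity
  refine (mul_le_mul_of_nonneg_right hp.2 hX).trans (le_of_eq ?_)
  have hQr : (Q:ℝ) ≠ 0 := by exact_mod_cast hQ.ne'
  rw [hN]
  push_cast
  field_simp
  ring

theorem La_sum {w T G M N : ℕ} {p : ℕ → ℕ → ℝ} {om : ℕ → ℕ → ℝ} {y : ℝ} (hT : 0 < T) (hG : 0 < G) (hM : 0 < M)
    (hN : N = (T * G) * M) (hp : Wt w p) (h0 : ∀ a b, 0 ≤ om a b)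
    (hm : ∑ V ∈ range T, ∑ a ∈ range T, om V a ≤ (T:ℝ) ^ 2) :
    ∑ j1 ∈ range N, ∑ j2 ∈ range N, La w p T G om y ((j1:ℝ) / N) ((j2:ℝ) / N) ≤ (N:ℝ) ^ 2 * (36 / G) := by
  have hP : 0 < T * G := Nat.mul_pos hT hG
  have e1 : ∑ j1 ∈ range N, ∑ j2 ∈ range N, La w p T G om y ((j1:ℝ) / N) ((j2:ℝ) / N) =
      ∑ n ∈ range (2 ^ w), ∑ a ∈ range (2 ^ w), p n a * ∑ j1 ∈ range N, ∑ j2 ∈ range N, Psi T G om
        (fl (T * G) ((T * G : ℕ) * ((j1:ℝ) / N) + G * (y * n))) (fl (T * G) ((T * G : ℕ) * ((j2:ℝ) / N) + G * (y * a))) := by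
    unfold La
    have c1 : ∀ j1 ∈ range N, ∑ j2 ∈ range N, ∑ n ∈ range (2 ^ w), ∑ a ∈ range (2 ^ w), p n a * Psi T G om
        (fl (T * G) ((T * G : ℕ) * ((j1:ℝ) / N) + G * (y * n))) (fl (T * G) ((T * G : ℕ) * ((j2:ℝ) / N) + G * (y * a))) =
        ∑ n ∈ range (2 ^ w), ∑ a ∈ range (2 ^ w), ∑ j2 ∈ range N, p n a * Psi T G om
        (fl (T * G) ((T * G : ℕ) * ((j1:ℝ) / N) + G * (y * n))) (fl (T * G) ((T * G : ℕ) * ((j2:ℝ) / N) + G * (y * a))) := by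
      intro j1 _
      rw [sum_comm]
      exact sum_congr rfl fun n _ => sum_comm
    rw [sum_congr rfl c1, sum_comm]
    refine sum_congr rfl fun n _ => ?_
    rw [sum_comm]
    refine sum_congr rfl fun a _ => ?_
    simp only [← mul_sum]
  rw [e1]
  have s1 := psi_sum hT hG h0 hm
  have s2 : ∀ n ∈ range (2 ^ w), ∀ a ∈ range (2 ^ w), p n a * ∑ j1 ∈ range N, ∑ j2 ∈ range N, Psi T G om
        (fl (T * G) ((T * G : ℕ) * ((j1:ℝ) / N) + G * (y * n))) (fl (T * G) ((T * G : ℕ) * ((j2:ℝ) / N) + G * (y * a))) ≤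
        p n a * ((M:ℝ) ^ 2 * (36 * G * (T:ℝ) ^ 2)) := by
    intro n _ a _
    rw [eq2 hP hM hN (Psi T G om) (G * (y * n)) (G * (y * a))]
    exact mul_le_mul_of_nonneg_left (mul_le_mul_of_nonneg_left s1 (by positivity)) (hp.1 n a)
  refine (sum_le_sum fun n hn => sum_le_sum fun a ha => s2 n hn a ha).trans ?_
  simp only [← sum_mul]
  have hX : 0 ≤ (M:ℝ) ^ 2 * (36 * G * (T:ℝ) ^ 2) := by positivity
  refine (mul_le_mul_of_nonneg_right hp.2 hX).trans (le_of_eq ?_)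
  have hGr : (G:ℝ) ≠ 0 := by exact_mod_cast hG.ne'
  rw [hN]
  push_cast
  field_simp

theorem Er_nonneg {w T Q : ℕ} {p : ℕ → ℕ → ℝ} {om : ℕ → ℕ → ℝ} {y : ℝ} (hp : Wt w p) (x1 x2 : ℝ) :
    0 ≤ Er w p T Q om y x1 x2 := by
  unfold Er
  refine sum_nonneg fun n _ => sum_nonneg fun a _ => mul_nonneg (hp.1 n a) ?_
  unfold er
  exact sum_nonneg fun _ _ => sum_nonneg fun _ _ =>
    mul_nonneg (mul_nonneg (kk_nonneg _ _ _) (kk_nonneg _ _ _)) (abs_nonneg _)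

theorem La_nonneg {w T G : ℕ} {p : ℕ → ℕ → ℝ} {om : ℕ → ℕ → ℝ} {y : ℝ} (hp : Wt w p) (h0 : ∀ a b, 0 ≤ om a b)
    (x1 x2 : ℝ) : 0 ≤ La w p T G om y x1 x2 := by
  unfold La
  refine sum_nonneg fun n _ => sum_nonneg fun a _ => mul_nonneg (hp.1 n a) ?_
  unfold Psi
  exact mul_nonneg (add_nonneg (mg_nonneg _ _) (mg_nonneg _ _)) (O9_nonneg h0 _ _)

open Classical in
theorem count {K M N : ℕ} (hK : 0 < K) (hM : 0 < M) (hN : N = K * M) (B : Finset (ℕ × ℕ))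
    (hB : B ⊆ range K ×ˢ range K) :
    ∑ j1 ∈ range N, ∑ j2 ∈ range N, (if (ix K ((j1:ℝ) / N), ix K ((j2:ℝ) / N)) ∈ B then (1:ℝ) else 0) =
      (M:ℝ) ^ 2 * B.card := by
  have h := eq2 hK hM hN (fun z1 z2 => if (z1, z2) ∈ B then (1:ℝ) else 0) 0 0
  simp only [add_zero] at h
  unfold ix
  rw [h]
  congr 1
  rw [← sum_product (s := range K) (t := range K) (f := fun z => if (z.1, z.2) ∈ B then (1:ℝ) else 0)]
  have e : ∀ z ∈ range K ×ˢ range K, (if (z.1, z.2) ∈ B then (1:ℝ) else 0) = if z ∈ B then 1 else 0 := by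
    intro z _; rfl
  rw [sum_congr rfl e, ← sum_filter, filter_mem_eq_inter, inter_eq_right.2 hB]
  simp

end GB

open GB in
theorem gbd : GBDStmt := by
  classical
  intro g w s T Q p om k y th d hT hQ2 hd hp h0 hm B hB hex
  have hQ : 0 < Q := by omega
  set G := 2 ^ g with hGd
  have hG : 0 < G := by positivity
  have hK : 0 < T * G := Nat.mul_pos hT hG
  obtain ⟨N, hN⟩ : ∃ N, N = (T * Q) * (G * 2) := ⟨_, rfl⟩
  have hN2 : N = (T * G) * (Q * 2) := by rw [hN]; ring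
  have hNge : 2 * (T * Q) ≤ N := by
    rw [hN]
    have : 1 ≤ G := hG
    calc 2 * (T * Q) = (T * Q) * (1 * 2) := by ring
      _ ≤ (T * Q) * (G * 2) := Nat.mul_le_mul_left _ (Nat.mul_le_mul_right _ this)
  have hG2 : 0 < G * 2 := by omega
  have hQ2' : 0 < Q * 2 := by omega
  have cnt := count hK hQ2' hN2 B hB
  have i1 := Gt_sq (w := w) (s := s) (p := p) (om := om) (k := k) (y := y) (th := th) hT hQ hNge
  have i2 := Er_sum (w := w) (y := y) hT hQ hG2 hN hp h0 hm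
  have i3 := La_sum (w := w) (y := y) hT hG hQ2' hN2 hp h0 hm
  -- pointwise
  have pw : ∀ j1 ∈ range N, ∀ j2 ∈ range N,
      (if (ix (T * G) ((j1:ℝ) / N), ix (T * G) ((j2:ℝ) / N)) ∈ B then (1:ℝ) else 0) ≤
        ‖Gt w s p T Q om k y th ((j1:ℝ) / N) ((j2:ℝ) / N)‖ ^ 2 * (1 / d ^ 2) +
        Er w p T Q om y ((j1:ℝ) / N) ((j2:ℝ) / N) * (1 / d) + La w p T G om y ((j1:ℝ) / N) ((j2:ℝ) / N) * (1 / d) := by
    intro j1 _ j2 _
    have n2 := Er_nonneg (T := T) (Q := Q) (om := om) (y := y) hp ((j1:ℝ) / N) ((j2:ℝ) / N)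
    have n3 := La_nonneg (T := T) (G := G) (om := om) (y := y) hp h0 ((j1:ℝ) / N) ((j2:ℝ) / N)
    have hd1 : 0 ≤ 1 / d := by positivity
    have hd2 : 0 ≤ 1 / d ^ 2 := by positivity
    have n1 : 0 ≤ ‖Gt w s p T Q om k y th ((j1:ℝ) / N) ((j2:ℝ) / N)‖ ^ 2 := by positivity
    have m1 := mul_nonneg n1 hd2
    have m2 := mul_nonneg n2 hd1
    have m3 := mul_nonneg n3 hd1
    split_ifs with hc
    · obtain ⟨x1, x2, hx1, hx2, hbig⟩ := hex _ hc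
      have a1 := Gf_near (w := w) (s := s) (k := k) (y := y) (th := th) hT hG hp.1 h0 hx1 hx2
      have a2 := Gf_sub_Gt (w := w) (s := s) (om := om) (k := k) (y := y) (th := th) hT hQ hp.1 ((j1:ℝ) / N) ((j2:ℝ) / N)
      have a3 : ‖Gf w s p T om k y th x1 x2‖ ≤ ‖Gt w s p T Q om k y th ((j1:ℝ) / N) ((j2:ℝ) / N)‖ +
          Er w p T Q om y ((j1:ℝ) / N) ((j2:ℝ) / N) + La w p T G om y ((j1:ℝ) / N) ((j2:ℝ) / N) := by
        have t1 := norm_sub_norm_le (Gf w s p T om k y th x1 x2) (Gf w s p T om k y th ((j1:ℝ) / N) ((j2:ℝ) / N))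
        have t2 := norm_sub_norm_le (Gf w s p T om k y th ((j1:ℝ) / N) ((j2:ℝ) / N)) (Gt w s p T Q om k y th ((j1:ℝ) / N) ((j2:ℝ) / N))
        linarith
      set g1 := ‖Gt w s p T Q om k y th ((j1:ℝ) / N) ((j2:ℝ) / N)‖
      set g2 := Er w p T Q om y ((j1:ℝ) / N) ((j2:ℝ) / N)
      set g3 := La w p T G om y ((j1:ℝ) / N) ((j2:ℝ) / N)
      rcases le_or_gt g1 d with h | h
      · have h4 : 2 * d ≤ g2 + g3 := by linarith
        have h5 : (2 * d) * (1 / d) ≤ (g2 + g3) * (1 / d) := mul_le_mul_of_nonneg_right h4 hd1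
        have h6 : (2 * d) * (1 / d) = 2 := by field_simp
        have h7 : (g2 + g3) * (1 / d) = g2 * (1 / d) + g3 * (1 / d) := by ring
        linarith
      · have h4 : d ^ 2 ≤ g1 ^ 2 := pow_le_pow_left₀ hd.le h.le 2
        have h5 : d ^ 2 * (1 / d ^ 2) ≤ g1 ^ 2 * (1 / d ^ 2) := mul_le_mul_of_nonneg_right h4 hd2
        have h6 : d ^ 2 * (1 / d ^ 2) = 1 := by field_simp
        linarith
    · linarith
  have tot := sum_le_sum fun j1 h1 => sum_le_sum fun j2 h2 => pw j1 h1 j2 h2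
  rw [cnt] at tot
  simp only [sum_add_distrib, ← sum_mul] at tot
  rw [i1] at tot
  have hd1 : 0 ≤ 1 / d := by positivity
  have t2 := mul_le_mul_of_nonneg_right i2 hd1
  have t3 := mul_le_mul_of_nonneg_right i3 hd1
  have hGr : (0:ℝ) < G := by exact_mod_cast hG
  have hQr : (0:ℝ) < Q := by exact_mod_cast hQ
  have hTr : (0:ℝ) < T := by exact_mod_cast hT
  have hc4 := c4_pos
  have hNr : (N:ℝ) = ((T:ℝ) * G) * (Q * 2) := by rw [hN2]; push_cast; ring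
  have e2 : (2:ℝ) ^ g = G := by rw [hGd]; push_cast; rfl
  rw [e2]
  have fin : ((Q * 2 : ℕ) : ℝ) ^ 2 * B.card ≤ ((Q * 2 : ℕ) : ℝ) ^ 2 *
      (((T:ℝ) * G) ^ 2 * (F4f w s p T Q om k y th / (c4 ^ 2 * d ^ 2) + 14 * (Real.log Q + 5) / (Q * d) + 36 / (G * d))) := by
    have e3 : ((Q * 2 : ℕ) : ℝ) ^ 2 *
      (((T:ℝ) * G) ^ 2 * (F4f w s p T Q om k y th / (c4 ^ 2 * d ^ 2) + 14 * (Real.log Q + 5) / (Q * d) + 36 / (G * d))) =
      (N:ℝ) ^ 2 * (F4f w s p T Q om k y th / c4 ^ 2) * (1 / d ^ 2) + (N:ℝ) ^ 2 * (14 * (Real.log Q + 5) / Q) * (1 / d) +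
        (N:ℝ) ^ 2 * (36 / G) * (1 / d) := by
      rw [hNr]
      push_cast
      field_simp
    rw [e3]
    linarith
  exact le_of_mul_le_mul_left fin (by positivity)

end Pool.FD
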