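import Pool.Agent.H84.FD.S
import Pool.Agent.H42.K2.Sca

/-! MP_1f2761, k = 2: tools for row GBD of board `fd`. Averages over grids, the Fejer kernel on
fine cells. -/

namespace Pool.FD
open Finset Pool.K2

namespace GB

/-! ### cyclic sums and grids -/

theorem cyc {R : ℕ} (hR : 0 < R) (f : ℕ → ℝ) (e : ℕ) :
    ∑ z ∈ range R, f ((z + e) % R) = ∑ z ∈ range R, f z := by
  induction e generalizing f with
  | zero =>
    refine sum_congr rfl fun z hz => ?_
    rw [Nat.add_zero, Nat.mod_eq_of_lt (mem_range.1 hz)]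
  | succ e ih =>
    have h1 : ∀ z ∈ range R, f ((z + (e + 1)) % R) = (fun t => f ((t + 1) % R)) ((z + e) % R) := by
      intro z _
      simp only
      rw [Nat.mod_add_mod, add_assoc]
    rw [sum_congr rfl h1, ih (fun t => f ((t + 1) % R))]
    obtain ⟨R', rfl⟩ : ∃ R', R = R' + 1 := ⟨R - 1, by omega⟩
    rw [sum_range_succ (fun z => f ((z + 1) % (R' + 1))), sum_range_succ' f, Nat.mod_self]
    congr 1
    refine sum_congr rfl fun z hz => ?_
    have := mem_range.1 hz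
    rw [Nat.mod_eq_of_lt (by omega)]

theorem fl_lt {R : ℕ} (hR : 0 < R) (x : ℝ) : fl R x < R := by
  unfold fl
  have hR' : (0:ℤ) < R := by exact_mod_cast hR
  have h1 := Int.emod_lt_of_pos ⌊x⌋ hR'
  have h2 := Int.emod_nonneg ⌊x⌋ hR'.ne'
  omega

theorem fl_spec {R : ℕ} (hR : 0 < R) (x : ℝ) : ∃ n : ℤ, (⌊x⌋ : ℤ) = fl R x + R * n := by
  have hR' : (0:ℤ) < R := by exact_mod_cast hR
  refine ⟨⌊x⌋ / R, ?_⟩
  unfold fl
  rw [Int.toNat_of_nonneg (Int.emod_nonneg _ hR'.ne')]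
  exact (Int.emod_add_mul_ediv ⌊x⌋ R).symm

theorem fl_of {R : ℕ} (x : ℝ) {z : ℕ} (hz : z < R) (n : ℤ) (h : (⌊x⌋ : ℤ) = z + R * n) : fl R x = z := by
  unfold fl
  rw [h, Int.add_mul_emod_self_left]
  have : ((z:ℤ) % R) = z := Int.emod_eq_of_lt (by omega) (by omega)
  rw [this]
  simp

theorem fl_add_nat {R : ℕ} (hR : 0 < R) (x : ℝ) (z : ℕ) : fl R (z + x) = (z + fl R x) % R := by
  obtain ⟨n, hn⟩ := fl_spec hR x
  refine fl_of _ (Nat.mod_lt _ hR) (n + ((z + fl R x) / R : ℕ)) ?_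
  rw [Int.floor_natCast_add, hn]
  have h1 : z + fl R x = (z + fl R x) % R + R * ((z + fl R x) / R) := (Nat.mod_add_div _ _).symm
  have h2 : ((z:ℤ) + fl R x) = ((z + fl R x) % R : ℕ) + R * ((z + fl R x) / R : ℕ) := by
    exact_mod_cast h1
  linear_combination h2

theorem eq1 {R M N : ℕ} (hR : 0 < R) (hM : 0 < M) (hN : N = R * M) (f : ℕ → ℝ) (c : ℝ) :
    ∑ j ∈ range N, f (fl R (R * ((j:ℝ) / N) + c)) = M * ∑ z ∈ range R, f z := by
  subst hN
  rw [sum_cells R M (fun j => f (fl R (R * ((j:ℝ) / (R * M : ℕ)) + c))), sum_comm]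
  have hR0 : (R:ℝ) ≠ 0 := by exact_mod_cast hR.ne'
  have hM0 : (M:ℝ) ≠ 0 := by exact_mod_cast hM.ne'
  have h : ∀ r ∈ range M, ∑ a ∈ range R, f (fl R (R * (((a * M + r : ℕ):ℝ) / (R * M : ℕ)) + c)) =
      ∑ z ∈ range R, f z := by
    intro r _
    have h1 : ∀ a ∈ range R, f (fl R (R * (((a * M + r : ℕ):ℝ) / (R * M : ℕ)) + c)) =
        f ((a + fl R ((r:ℝ) / M + c)) % R) := by
      intro a _
      rw [← fl_add_nat hR]
      congr 2
      push_cast
      field_simp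
      ring
    rw [sum_congr rfl h1, cyc hR]
  rw [sum_congr rfl h]
  simp

theorem eq2 {R M N : ℕ} (hR : 0 < R) (hM : 0 < M) (hN : N = R * M) (f : ℕ → ℕ → ℝ) (c1 c2 : ℝ) :
    ∑ j1 ∈ range N, ∑ j2 ∈ range N, f (fl R (R * ((j1:ℝ) / N) + c1)) (fl R (R * ((j2:ℝ) / N) + c2)) =
      (M:ℝ) ^ 2 * ∑ z1 ∈ range R, ∑ z2 ∈ range R, f z1 z2 := by
  have h1 : ∀ j1 ∈ range N, ∑ j2 ∈ range N,
      f (fl R (R * ((j1:ℝ) / N) + c1)) (fl R (R * ((j2:ℝ) / N) + c2)) =
      M * (fun z1 => ∑ z2 ∈ range R, f z1 z2) (fl R (R * ((j1:ℝ) / N) + c1)) := by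
    intro j1 _
    exact eq1 hR hM hN (fun z2 => f (fl R (R * ((j1:ℝ) / N) + c1)) z2) c2
  rw [sum_congr rfl h1, ← mul_sum, eq1 hR hM hN (fun z1 => ∑ z2 ∈ range R, f z1 z2) c1]
  ring

/-- fine cell and coarse cell -/
theorem fl_div {T Q : ℕ} (hT : 0 < T) (hQ : 0 < Q) (u : ℝ) : fl (T * Q) (Q * u) / Q = fl T u := by
  have hP : 0 < T * Q := Nat.mul_pos hT hQ
  obtain ⟨n, hn⟩ := fl_spec hP (Q * u)
  set z := fl (T * Q) (Q * u) with hz
  have hzlt : z < T * Q := fl_lt hP _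
  symm
  have hlt : z / Q < T := by
    rw [Nat.div_lt_iff_lt_mul hQ]; exact hzlt
  refine fl_of u hlt n ?_
  -- ⌊u⌋ = ⌊Q u⌋ / Q
  have h1 : ⌊u⌋ = ⌊(Q:ℝ) * u⌋ / (Q:ℤ) := by
    have hQz : (0:ℤ) < Q := by exact_mod_cast hQ
    have hQr : (0:ℝ) < Q := by exact_mod_cast hQ
    apply le_antisymm
    · rw [Int.le_ediv_iff_mul_le hQz, Int.le_floor]
      push_cast
      have := Int.floor_le u
      nlinarith
    · rw [Int.le_floor]
      have h2 : (⌊(Q:ℝ) * u⌋ / (Q:ℤ)) * Q ≤ ⌊(Q:ℝ) * u⌋ := Int.ediv_mul_le _ hQz.ne'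
      have h3 := Int.floor_le ((Q:ℝ) * u)
      have h4 : (((⌊(Q:ℝ) * u⌋ / (Q:ℤ)) * Q : ℤ) : ℝ) ≤ (⌊(Q:ℝ) * u⌋ : ℝ) := by exact_mod_cast h2
      push_cast at h4
      nlinarith
  rw [h1, hn]
  have hQz : (Q:ℤ) ≠ 0 := by exact_mod_cast hQ.ne'
  have h5 : ((z:ℤ) + ((T * Q : ℕ) : ℤ) * n) = z + (T * n) * Q := by push_cast; ring
  rw [h5, Int.add_mul_ediv_right _ _ hQz]
  push_cast
  rfl

/-! ### decay numbers -/

noncomputable def lam (D : ℕ) : ℝ := if D = 0 then 1 else 1 / (2 * (D:ℝ) - 1) ^ 2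

theorem lam_nonneg (D : ℕ) : 0 ≤ lam D := by
  unfold lam
  split_ifs <;> positivity

theorem lam_step {m : ℕ} (hm : 1 ≤ m) : lam (m + 1) ≤ 1 / (4 * (m:ℝ)) - 1 / (4 * ((m:ℝ) + 1)) := by
  unfold lam
  rw [if_neg (by omega)]
  have hm' : (1:ℝ) ≤ m := by exact_mod_cast hm
  have h1 : 1 / (4 * (m:ℝ)) - 1 / (4 * ((m:ℝ) + 1)) = 1 / (4 * m * (m + 1)) := by
    field_simp
    ring
  rw [h1]
  apply one_div_le_one_div_of_le (by positivity)
  push_cast
  nlinarith

theorem lam_one : lam 1 = 1 := by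
  unfold lam
  norm_num

theorem lam_sum (n : ℕ) : ∑ D ∈ range n, lam (D + 1) ≤ 5 / 4 := by
  have key : ∀ k : ℕ, ∑ D ∈ range (k + 1), lam (D + 1) ≤ 5 / 4 - 1 / (4 * ((k:ℝ) + 1)) := by
    intro k
    induction k with
    | zero => simp [lam_one]; norm_num
    | succ k ih =>
      rw [sum_range_succ]
      have := lam_step (m := k + 1) (by omega)
      push_cast at this ⊢
      linarith
  rcases Nat.eq_zero_or_pos n with rfl | h
  · simp only [range_zero, sum_empty]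
    norm_num
  · obtain ⟨k, rfl⟩ : ∃ k, n = k + 1 := ⟨n - 1, by omega⟩
    have h1 := key k
    have h2 : 0 ≤ 1 / (4 * ((k:ℝ) + 1)) := by positivity
    linarith

theorem lam_tail {J : ℕ} (hJ : 1 ≤ J) (n : ℕ) : ∑ i ∈ range n, lam (J + i) ≤ lam J + 1 / (4 * (J:ℝ)) := by
  have key : ∀ k : ℕ, ∑ i ∈ range (k + 1), lam (J + i) ≤ lam J + 1 / (4 * (J:ℝ)) - 1 / (4 * ((J:ℝ) + k)) := by
    intro k
    induction k with
    | zero => simp
    | succ k ih =>
      rw [sum_range_succ]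
      have := lam_step (m := J + k) (by omega)
      push_cast at this ⊢
      rw [← add_assoc J k 1, ← add_assoc (J:ℝ) k 1]
      linarith
  have hJ' : (0:ℝ) < J := by exact_mod_cast hJ
  rcases Nat.eq_zero_or_pos n with rfl | h
  · have := lam_nonneg J
    have : 0 ≤ 1 / (4 * (J:ℝ)) := by positivity
    simp only [range_zero, sum_empty]
    linarith
  · obtain ⟨k, rfl⟩ : ∃ k, n = k + 1 := ⟨n - 1, by omega⟩
    have h1 := key k
    have h2 : 0 ≤ 1 / (4 * ((J:ℝ) + k)) := by positivity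
    linarith

theorem tail_if {J : ℕ} (hJ : 1 ≤ J) (n : ℕ) :
    ∑ D ∈ range n, (if J ≤ D then lam D else 0) ≤ lam J + 1 / (4 * (J:ℝ)) := by
  have hJ' : (0:ℝ) < J := by exact_mod_cast hJ
  have hnn : 0 ≤ lam J + 1 / (4 * (J:ℝ)) := add_nonneg (lam_nonneg _) (by positivity)
  rcases le_or_gt n J with h | h
  · refine le_trans (le_of_eq ?_) hnn
    refine sum_eq_zero fun D hD => ?_
    have := mem_range.1 hD
    rw [if_neg (by omega)]
  · obtain ⟨m, rfl⟩ : ∃ m, n = J + m := ⟨n - J, by omega⟩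
    rw [sum_range_add]
    have h1 : ∑ D ∈ range J, (if J ≤ D then lam D else 0) = 0 := by
      refine sum_eq_zero fun D hD => ?_
      have := mem_range.1 hD
      rw [if_neg (by omega)]
    have h2 : ∑ D ∈ range m, (if J ≤ J + D then lam (J + D) else 0) = ∑ i ∈ range m, lam (J + i) := by
      refine sum_congr rfl fun D _ => ?_
      rw [if_pos (by omega)]
    rw [h1, h2, zero_add]
    exact lam_tail hJ m

/-! ### the cyclic kernel -/

noncomputable def kc (P D : ℕ) : ℝ := lam D + lam (P - D)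
noncomputable def kk (P z z' : ℕ) : ℝ := kc P ((z' + (P - z)) % P)

theorem kc_nonneg (P D : ℕ) : 0 ≤ kc P D := add_nonneg (lam_nonneg _) (lam_nonneg _)
theorem kk_nonneg (P z z' : ℕ) : 0 ≤ kk P z z' := kc_nonneg _ _

theorem mod_ge {P z z' : ℕ} (hz : z < P) (hz' : z' < P) (h : z ≤ z') : (z' + (P - z)) % P = z' - z := by
  have e : z' + (P - z) = (z' - z) + P := by omega
  rw [e, Nat.add_mod_right, Nat.mod_eq_of_lt (by omega)]

theorem mod_lt' {P z z' : ℕ} (hz : z < P) (h : z' < z) : (z' + (P - z)) % P = z' + (P - z) :=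
  Nat.mod_eq_of_lt (by omega)

theorem kk_symm {P z z' : ℕ} (hz : z < P) (hz' : z' < P) : kk P z z' = kk P z' z := by
  unfold kk
  rcases lt_trichotomy z z' with h | h | h
  · rw [mod_ge hz hz' h.le, mod_lt' hz' h]
    unfold kc
    have e1 : P - (z + (P - z')) = z' - z := by omega
    have e2 : P - (z' - z) = z + (P - z') := by omega
    rw [e1, e2, add_comm]
  · rw [h]
  · rw [mod_ge hz' hz h.le, mod_lt' hz h]
    unfold kc
    have e1 : P - (z' + (P - z)) = z - z' := by omega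
    have e2 : P - (z - z') = z' + (P - z) := by omega
    rw [e1, e2, add_comm]

theorem kk_sum {P z : ℕ} (hP : 0 < P) : ∑ z' ∈ range P, kk P z z' ≤ 7 / 2 := by
  unfold kk
  rw [cyc hP (kc P) (P - z)]
  unfold kc
  rw [sum_add_distrib]
  have h1 : ∑ D ∈ range P, lam D ≤ 1 + 5 / 4 := by
    obtain ⟨P', rfl⟩ : ∃ P', P = P' + 1 := ⟨P - 1, by omega⟩
    rw [sum_range_succ']
    have e : lam 0 = 1 := by unfold lam; simp
    have := lam_sum P'
    linarith
  have h2 : ∑ D ∈ range P, lam (P - D) ≤ 5 / 4 := by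
    have e : ∑ D ∈ range P, lam (P - D) = ∑ D ∈ range P, lam (D + 1) := by
      rw [← sum_range_reflect (fun j => lam (j + 1)) P]
      refine sum_congr rfl fun D hD => ?_
      have := mem_range.1 hD
      congr 1
      omega
    rw [e]
    exact lam_sum P
  linarith

theorem fe_le_of {P : ℕ} {x A : ℝ} (hA : 0 < A) (h : A ≤ 2 * P * nn x) : fe P x ≤ 1 / A ^ 2 := by
  have h1 := fe_le P x
  have h2 : A ^ 2 ≤ (2 * P * nn x) ^ 2 := pow_le_pow_left₀ hA.le h 2
  rw [le_div_iff₀ (by positivity)]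
  have := fe_nonneg P x
  nlinarith

theorem fe_kk {P : ℕ} (hP : 0 < P) {z : ℕ} (hz : z < P) (u : ℝ) :
    fe P (u / P - ((z:ℝ) + 1 / 2) / P) ≤ kk P z (fl P u) := by
  obtain ⟨n, hn⟩ := fl_spec hP u
  set z' := fl P u with hz'
  have hz'lt : z' < P := fl_lt hP u
  have hPr : (0:ℝ) < P := by exact_mod_cast hP
  unfold kk
  set D := (z' + (P - z)) % P with hD
  have hDlt : D < P := Nat.mod_lt _ hP
  obtain ⟨e, he⟩ : ∃ e : ℤ, (z':ℤ) - z = D + P * e := by
    refine ⟨((z' + (P - z)) / P : ℕ) - 1, ?_⟩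
    have h1 : (z' + (P - z)) % P + P * ((z' + (P - z)) / P) = z' + (P - z) := Nat.mod_add_div _ _
    have h2 : (((z' + (P - z)) % P : ℕ) : ℤ) + P * ((z' + (P - z)) / P : ℕ) = z' + (P - z) := by
      have : (((z' + (P - z)) : ℕ) : ℤ) = z' + (P - z) := by push_cast [hz.le]; ring
      rw [← this]
      exact_mod_cast h1
    rw [← hD] at h2
    linear_combination -h2
  rcases Nat.eq_zero_or_pos D with h0 | hpos
  · unfold kc
    rw [h0]
    have e1 : lam 0 = 1 := by unfold lam; simp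
    rw [e1]
    have := lam_nonneg (P - 0)
    have := fe_le_one P (u / P - ((z:ℝ) + 1 / 2) / P)
    linarith
  · -- x = (D + θ - 1/2)/P + integer
    set θ := Int.fract u with hθ
    have hθ0 : 0 ≤ θ := Int.fract_nonneg u
    have hθ1 : θ < 1 := Int.fract_lt_one u
    have hu : u = ⌊u⌋ + θ := (Int.floor_add_fract u).symm
    have hx : u / P - ((z:ℝ) + 1 / 2) / P = ((D:ℝ) + θ - 1 / 2) / P + ((e + n : ℤ) : ℝ) := by
      have hn' : (⌊u⌋ : ℝ) = z' + P * n := by exact_mod_cast hn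
      have he' : (z':ℝ) - z = D + P * e := by exact_mod_cast he
      rw [hu, hn']
      push_cast
      field_simp
      linear_combination 2 * he'
    rw [hx, fe_add_int]
    set x := ((D:ℝ) + θ - 1 / 2) / P with hxd
    have hD1 : (1:ℝ) ≤ D := by exact_mod_cast hpos
    have hDP : (D:ℝ) + 1 ≤ P := by exact_mod_cast hDlt
    have hPx : P * x = (D:ℝ) + θ - 1 / 2 := by rw [hxd]; field_simp
    have hnn : (2 * (D:ℝ) - 1 ≤ 2 * P * nn x) ∨ (2 * ((P:ℝ) - D) - 1 ≤ 2 * P * nn x) := by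
      unfold nn
      rcases le_or_gt (round x) 0 with h | h
      · left
        have h1 : (round x : ℝ) ≤ 0 := by exact_mod_cast h
        have h2 : x ≤ |x - round x| := by
          refine le_trans ?_ (le_abs_self _)
          linarith
        have h3 : P * x ≤ P * |x - round x| := mul_le_mul_of_nonneg_left h2 hPr.le
        linarith
      · right
        have h1 : (1:ℝ) ≤ round x := by exact_mod_cast h
        have h2 : 1 - x ≤ |x - round x| := by
          refine le_trans ?_ (neg_le_abs _)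
          linarith
        have h3 : P * (1 - x) ≤ P * |x - round x| := mul_le_mul_of_nonneg_left h2 hPr.le
        linarith
    have hPD : 1 ≤ P - D := by omega
    have hcast : ((P - D : ℕ) : ℝ) = (P:ℝ) - D := by push_cast [hDlt.le]; ring
    rcases hnn with h | h
    · have h1 := fe_le_of (A := 2 * (D:ℝ) - 1) (by linarith) h
      have h2 : lam D = 1 / (2 * (D:ℝ) - 1) ^ 2 := by unfold lam; rw [if_neg (by omega)]
      unfold kc
      have := lam_nonneg (P - D)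
      linarith
    · have h1 := fe_le_of (A := 2 * ((P:ℝ) - D) - 1) (by linarith) h
      have h2 : lam (P - D) = 1 / (2 * ((P:ℝ) - D) - 1) ^ 2 := by
        unfold lam
        rw [if_neg (by omega), hcast]
      unfold kc
      have := lam_nonneg D
      linarith

/-- the kernel has mean one -/
theorem fe_sum {P : ℕ} (hP : 0 < P) (x : ℝ) : ∑ z ∈ range P, fe P (x - ((z:ℝ) + 1 / 2) / P) = 1 := by
  have hPr : (P:ℝ) ≠ 0 := by exact_mod_cast hP.ne'
  have h1 := parseval_one (P := P) hP (fun j => ex (j * (x - 1 / (2 * P))))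
  have h2 : ∀ z ∈ range P, fe P (x - ((z:ℝ) + 1 / 2) / P) =
      ‖∑ j ∈ range P, ex (j * (x - 1 / (2 * P))) * ex (-((z:ℝ) * j / P))‖ ^ 2 / (P:ℝ) ^ 2 := by
    intro z _
    unfold fe
    congr 3
    refine sum_congr rfl fun j _ => ?_
    rw [← ex_add]
    congr 1
    field_simp
    ring
  rw [sum_congr rfl h2, ← sum_div, h1]
  have h3 : ∑ j ∈ range P, ‖ex ((j:ℝ) * (x - 1 / (2 * P)))‖ ^ 2 = P := by
    simp [ex_norm]
  rw [h3]
  field_simp

end GB

end Pool.FD
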