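import Pool.Agent.H38.FD.GB1

/-! MP_1f2761, k = 2: tools for row GBD of board `fd`, part 2: the mean error of the smoothing. -/

namespace Pool.FD
open Finset Pool.K2

namespace GB

/-! ### crossing sums -/

/-- one if the two fine positions lie in different coarse cells -/
noncomputable def ic (Q z z' : ℕ) : ℝ := if z / Q = z' / Q then 0 else 1

theorem ic_nonneg (Q z z' : ℕ) : 0 ≤ ic Q z z' := by
  unfold ic; split_ifs <;> norm_num

theorem ic_symm (Q z z' : ℕ) : ic Q z z' = ic Q z' z := by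
  unfold ic
  by_cases h : z / Q = z' / Q
  · rw [if_pos h, if_pos h.symm]
  · rw [if_neg h, if_neg (fun e => h e.symm)]

noncomputable def be (Q P z : ℕ) : ℝ := ∑ z' ∈ range P, kk P z z' * ic Q z z'

theorem cross {T Q V j z' : ℕ} (hV : V < T) (hj : j < Q) (hz' : z' < T * Q)
    (h : (V * Q + j) / Q ≠ z' / Q) :
    Q - j ≤ (z' + (T * Q - (V * Q + j))) % (T * Q) ∧ (z' + (T * Q - (V * Q + j))) % (T * Q) + j < T * Q := by
  have hQ : 0 < Q := by omega
  have e : (V * Q + j) / Q = V := by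
    rw [mul_comm V Q, Nat.mul_add_div hQ, Nat.div_eq_of_lt hj, Nat.add_zero]
  rw [e] at h
  have hVT : (V + 1) * Q ≤ T * Q := Nat.mul_le_mul_right _ hV
  have hVQ : (V + 1) * Q = V * Q + Q := by ring
  have hzlt : V * Q + j < T * Q := by omega
  rcases le_or_gt (V * Q + j) z' with h1 | h1
  · rw [mod_ge hzlt hz' h1]
    have h2 : (V + 1) * Q ≤ z' := by
      by_contra hc
      have h3 : z' / Q < V + 1 := by rw [Nat.div_lt_iff_lt_mul hQ]; omega
      have h4 : V ≤ z' / Q := by rw [Nat.le_div_iff_mul_le hQ]; omega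
      omega
    have h5 : 0 ≤ V * Q := Nat.zero_le _
    omega
  · rw [mod_lt' hzlt h1]
    have h2 : z' < V * Q := by
      by_contra hc
      have h3 : z' / Q < V + 1 := by rw [Nat.div_lt_iff_lt_mul hQ]; omega
      have h4 : V ≤ z' / Q := by rw [Nat.le_div_iff_mul_le hQ]; omega
      omega
    omega

theorem be_le {T Q V j : ℕ} (hV : V < T) (hj : j < Q) :
    be Q (T * Q) (V * Q + j) ≤ (lam (Q - j) + 1 / (4 * ((Q - j : ℕ):ℝ))) + (lam (j + 1) + 1 / (4 * ((j + 1 : ℕ):ℝ))) := by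
  have hQ : 0 < Q := by omega
  have hP : 0 < T * Q := Nat.mul_pos (by omega) hQ
  set P := T * Q with hPd
  set e := P - (V * Q + j) with he
  have s1 : be Q P (V * Q + j) ≤ ∑ z' ∈ range P, (fun D => (if Q - j ≤ D then lam D else 0) +
      (if D + j < P then lam (P - D) else 0)) ((z' + e) % P) := by
    unfold be
    refine sum_le_sum fun z' hz' => ?_
    have hz := mem_range.1 hz'
    unfold ic
    by_cases hc : (V * Q + j) / Q = z' / Q
    · rw [if_pos hc, mul_zero]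
      have h1 := lam_nonneg ((z' + e) % P)
      have h2 := lam_nonneg (P - (z' + e) % P)
      simp only
      split_ifs <;> linarith
    · rw [if_neg hc, mul_one]
      obtain ⟨h1, h2⟩ := cross hV hj hz hc
      simp only
      rw [← hPd, ← he] at h1 h2
      rw [if_pos h1, if_pos h2]
      unfold kk kc
      exact le_rfl
  refine s1.trans ?_
  rw [cyc hP (fun D => (if Q - j ≤ D then lam D else 0) + (if D + j < P then lam (P - D) else 0)) e, sum_add_distrib]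
  have h1 := tail_if (J := Q - j) (by omega) P
  have h2 : ∑ D ∈ range P, (if D + j < P then lam (P - D) else 0) ≤ lam (j + 1) + 1 / (4 * ((j + 1 : ℕ):ℝ)) := by
    refine le_trans ?_ (tail_if (J := j + 1) (by omega) (P + 1))
    rw [sum_range_succ' (fun D => if j + 1 ≤ D then lam D else 0)]
    rw [if_neg (by omega), add_zero, ← sum_range_reflect (fun i => if j + 1 ≤ i + 1 then lam (i + 1) else 0) P]
    refine le_of_eq (sum_congr rfl fun D hD => ?_)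
    have := mem_range.1 hD
    have e1 : P - 1 - D + 1 = P - D := by omega
    rw [e1]
    by_cases hc : D + j < P
    · rw [if_pos hc, if_pos (by omega)]
    · rw [if_neg hc, if_neg (by omega)]
  exact add_le_add h1 h2

theorem be_nonneg (Q P z : ℕ) : 0 ≤ be Q P z :=
  sum_nonneg fun _ _ => mul_nonneg (kk_nonneg _ _ _) (ic_nonneg _ _ _)

theorem be_sum {T Q V : ℕ} (hV : V < T) (hQ : 1 ≤ Q) :
    ∑ j ∈ range Q, be Q (T * Q) (V * Q + j) ≤ Real.log Q + 5 := by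
  have h1 : ∑ j ∈ range Q, be Q (T * Q) (V * Q + j) ≤
      ∑ j ∈ range Q, ((lam (Q - j) + 1 / (4 * ((Q - j : ℕ):ℝ))) + (lam (j + 1) + 1 / (4 * ((j + 1 : ℕ):ℝ)))) :=
    sum_le_sum fun j hj => be_le hV (mem_range.1 hj)
  refine h1.trans ?_
  rw [sum_add_distrib]
  have h2 : ∑ j ∈ range Q, (lam (Q - j) + 1 / (4 * ((Q - j : ℕ):ℝ))) =
      ∑ j ∈ range Q, (lam (j + 1) + 1 / (4 * ((j + 1 : ℕ):ℝ))) := by
    rw [← sum_range_reflect (fun j => lam (j + 1) + 1 / (4 * ((j + 1 : ℕ):ℝ))) Q]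
    refine sum_congr rfl fun j hj => ?_
    have := mem_range.1 hj
    have e1 : Q - 1 - j + 1 = Q - j := by omega
    rw [e1]
  rw [h2]
  have h3 := lam_sum Q
  have h4 : ∑ j ∈ range Q, 1 / (4 * ((j + 1 : ℕ):ℝ)) ≤ (1 + Real.log Q) / 4 := by
    have := harmonic_le_one_add_log Q
    have e : ((harmonic Q : ℚ) : ℝ) = ∑ j ∈ range Q, (((j + 1 : ℕ):ℝ))⁻¹ := by
      rw [harmonic]; push_cast; rfl
    rw [e] at this
    have e2 : ∑ j ∈ range Q, 1 / (4 * ((j + 1 : ℕ):ℝ)) = (∑ j ∈ range Q, (((j + 1 : ℕ):ℝ))⁻¹) / 4 := by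
      rw [sum_div]
      refine sum_congr rfl fun j _ => ?_
      field_simp
    rw [e2]
    linarith
  rw [sum_add_distrib]
  have h5 : 0 ≤ Real.log Q := Real.log_natCast_nonneg _
  linarith

/-! ### the mean error of the smoothing -/

/-- error at the fine cell `z'` -/
noncomputable def er (P : ℕ) (f : ℕ → ℕ → ℝ) (z1' z2' : ℕ) : ℝ :=
  ∑ z1 ∈ range P, ∑ z2 ∈ range P, kk P z1 z1' * kk P z2 z2' * |f z1 z2 - f z1' z2'|

theorem rf_abs {Q : ℕ} {om : ℕ → ℕ → ℝ} (h0 : ∀ a b, 0 ≤ om a b) (z1 z2 z1' z2' : ℕ) :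
    |rf Q om z1 z2 - rf Q om z1' z2'| ≤ (ic Q z1 z1' + ic Q z2 z2') * (rf Q om z1 z2 + rf Q om z1' z2') := by
  unfold rf ic
  have h1 := h0 (z1 / Q) (z2 / Q)
  have h2 := h0 (z1' / Q) (z2' / Q)
  have h3 : |om (z1 / Q) (z2 / Q) - om (z1' / Q) (z2' / Q)| ≤ om (z1 / Q) (z2 / Q) + om (z1' / Q) (z2' / Q) := by
    rw [abs_le]; constructor <;> linarith
  by_cases c1 : z1 / Q = z1' / Q
  · by_cases c2 : z2 / Q = z2' / Q
    · rw [c1, c2]; simp
    · rw [if_pos c1, if_neg c2]; linarith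
  · by_cases c2 : z2 / Q = z2' / Q
    · rw [if_neg c1, if_pos c2]; linarith
    · rw [if_neg c1, if_neg c2]; linarith

/-- the half sum -/
noncomputable def hs (P Q : ℕ) (f : ℕ → ℕ → ℝ) : ℝ :=
  ∑ z ∈ range P ×ˢ range P, ∑ z' ∈ range P ×ˢ range P,
    kk P z.1 z'.1 * kk P z.2 z'.2 * (ic Q z.1 z'.1 + ic Q z.2 z'.2) * f z.1 z.2

theorem er_sum_le {P Q : ℕ} {om : ℕ → ℕ → ℝ} (h0 : ∀ a b, 0 ≤ om a b) :
    ∑ z1' ∈ range P, ∑ z2' ∈ range P, er P (rf Q om) z1' z2' ≤ 2 * hs P Q (rf Q om) := by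
  have e1 : ∑ z1' ∈ range P, ∑ z2' ∈ range P, er P (rf Q om) z1' z2' =
      ∑ z' ∈ range P ×ˢ range P, ∑ z ∈ range P ×ˢ range P,
        kk P z.1 z'.1 * kk P z.2 z'.2 * |rf Q om z.1 z.2 - rf Q om z'.1 z'.2| := by
    rw [sum_product]
    refine sum_congr rfl fun z1' _ => sum_congr rfl fun z2' _ => ?_
    unfold er
    rw [sum_product]
  rw [e1]
  have e2 : ∑ z' ∈ range P ×ˢ range P, ∑ z ∈ range P ×ˢ range P,
        kk P z.1 z'.1 * kk P z.2 z'.2 * |rf Q om z.1 z.2 - rf Q om z'.1 z'.2| ≤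
      ∑ z' ∈ range P ×ˢ range P, ∑ z ∈ range P ×ˢ range P,
        (kk P z.1 z'.1 * kk P z.2 z'.2 * (ic Q z.1 z'.1 + ic Q z.2 z'.2) * rf Q om z.1 z.2 +
          kk P z'.1 z.1 * kk P z'.2 z.2 * (ic Q z'.1 z.1 + ic Q z'.2 z.2) * rf Q om z'.1 z'.2) := by
    refine sum_le_sum fun z' hz' => sum_le_sum fun z hz => ?_
    simp only [mem_product, mem_range] at hz hz'
    rw [kk_symm hz'.1 hz.1, kk_symm hz'.2 hz.2, ic_symm Q z'.1 z.1, ic_symm Q z'.2 z.2]
    have h1 := rf_abs (Q := Q) h0 z.1 z.2 z'.1 z'.2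
    have h2 : 0 ≤ kk P z.1 z'.1 * kk P z.2 z'.2 := mul_nonneg (kk_nonneg _ _ _) (kk_nonneg _ _ _)
    have h3 := mul_le_mul_of_nonneg_left h1 h2
    linarith
  refine e2.trans (le_of_eq ?_)
  have e3 : ∑ z' ∈ range P ×ˢ range P, ∑ z ∈ range P ×ˢ range P,
        (kk P z.1 z'.1 * kk P z.2 z'.2 * (ic Q z.1 z'.1 + ic Q z.2 z'.2) * rf Q om z.1 z.2) = hs P Q (rf Q om) := by
    rw [sum_comm]; rfl
  have e4 : ∑ z' ∈ range P ×ˢ range P, ∑ z ∈ range P ×ˢ range P,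
        (kk P z'.1 z.1 * kk P z'.2 z.2 * (ic Q z'.1 z.1 + ic Q z'.2 z.2) * rf Q om z'.1 z'.2) = hs P Q (rf Q om) := rfl
  simp only [sum_add_distrib]
  rw [e3, e4]
  ring

theorem hs_le {T Q : ℕ} (hT : 0 < T) (hQ : 1 ≤ Q) {om : ℕ → ℕ → ℝ} (h0 : ∀ a b, 0 ≤ om a b)
    (hm : ∑ V ∈ range T, ∑ a ∈ range T, om V a ≤ (T:ℝ) ^ 2) :
    hs (T * Q) Q (rf Q om) ≤ 7 * Q * (T:ℝ) ^ 2 * (Real.log Q + 5) := by
  have hP : 0 < T * Q := Nat.mul_pos hT hQ
  have hL : 0 ≤ Real.log Q := Real.log_natCast_nonneg _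
  have s1 : hs (T * Q) Q (rf Q om) ≤ ∑ z1 ∈ range (T * Q), ∑ z2 ∈ range (T * Q),
      7 / 2 * (be Q (T * Q) z1 + be Q (T * Q) z2) * rf Q om z1 z2 := by
    unfold hs
    rw [sum_product]
    refine sum_le_sum fun z1 _ => sum_le_sum fun z2 _ => ?_
    have hr : 0 ≤ rf Q om z1 z2 := h0 _ _
    have e1 : ∑ z' ∈ range (T * Q) ×ˢ range (T * Q),
        kk (T * Q) z1 z'.1 * kk (T * Q) z2 z'.2 * (ic Q z1 z'.1 + ic Q z2 z'.2) * rf Q om z1 z2 =
        (be Q (T * Q) z1 * (∑ z2' ∈ range (T * Q), kk (T * Q) z2 z2') +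
          (∑ z1' ∈ range (T * Q), kk (T * Q) z1 z1') * be Q (T * Q) z2) * rf Q om z1 z2 := by
      unfold be
      rw [sum_mul_sum, sum_mul_sum, ← sum_add_distrib, sum_mul, sum_product]
      refine sum_congr rfl fun z1' _ => ?_
      rw [← sum_add_distrib, sum_mul]
      refine sum_congr rfl fun z2' _ => ?_
      ring
    simp only
    rw [e1]
    apply mul_le_mul_of_nonneg_right _ hr
    have k1 := kk_sum (P := T * Q) (z := z1) hP
    have k2 := kk_sum (P := T * Q) (z := z2) hP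
    have b1 := be_nonneg Q (T * Q) z1
    have b2 := be_nonneg Q (T * Q) z2
    nlinarith
  refine s1.trans ?_
  rw [sum_cells₂ T Q (fun z1 z2 => 7 / 2 * (be Q (T * Q) z1 + be Q (T * Q) z2) * rf Q om z1 z2)]
  have s2 : ∀ V ∈ range T, ∀ A ∈ range T, ∑ j1 ∈ range Q, ∑ j2 ∈ range Q,
      7 / 2 * (be Q (T * Q) (V * Q + j1) + be Q (T * Q) (A * Q + j2)) * rf Q om (V * Q + j1) (A * Q + j2) ≤
      7 * Q * (Real.log Q + 5) * om V A := by
    intro V hV A hA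
    have e1 : ∀ j1 ∈ range Q, ∀ j2 ∈ range Q, rf Q om (V * Q + j1) (A * Q + j2) = om V A := by
      intro j1 hj1 j2 hj2
      have hQ' : 0 < Q := hQ
      unfold rf
      have d : ∀ (c j : ℕ), j < Q → (c * Q + j) / Q = c := by
        intro c j hj
        rw [mul_comm c Q, Nat.mul_add_div hQ', Nat.div_eq_of_lt hj, Nat.add_zero]
      rw [d _ _ (mem_range.1 hj1), d _ _ (mem_range.1 hj2)]
    have e2 : ∑ j1 ∈ range Q, ∑ j2 ∈ range Q,
        7 / 2 * (be Q (T * Q) (V * Q + j1) + be Q (T * Q) (A * Q + j2)) * rf Q om (V * Q + j1) (A * Q + j2) =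
        7 / 2 * (Q * (∑ j1 ∈ range Q, be Q (T * Q) (V * Q + j1)) + Q * (∑ j2 ∈ range Q, be Q (T * Q) (A * Q + j2))) * om V A := by
      have e3 : ∀ j1 ∈ range Q, ∑ j2 ∈ range Q,
          7 / 2 * (be Q (T * Q) (V * Q + j1) + be Q (T * Q) (A * Q + j2)) * rf Q om (V * Q + j1) (A * Q + j2) =
          (7 / 2 * om V A) * (Q * be Q (T * Q) (V * Q + j1)) + (7 / 2 * om V A) * ∑ j2 ∈ range Q, be Q (T * Q) (A * Q + j2) := by
        intro j1 hj1
        rw [sum_congr rfl (fun j2 hj2 => by rw [e1 j1 hj1 j2 hj2])]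
        rw [mul_sum, ← sum_mul, ← mul_sum, sum_add_distrib, ← mul_sum]
        simp only [sum_const, card_range, nsmul_eq_mul]
        ring
      rw [sum_congr rfl e3, sum_add_distrib, ← mul_sum, ← mul_sum]
      simp only [sum_const, card_range, nsmul_eq_mul]
      ring
    rw [e2]
    have b1 := be_sum (T := T) (V := V) (mem_range.1 hV) hQ
    have b2 := be_sum (T := T) (V := A) (mem_range.1 hA) hQ
    have hQr : (0:ℝ) ≤ Q := Nat.cast_nonneg _
    have h1 := h0 V A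
    have h2 := mul_le_mul_of_nonneg_left b1 hQr
    have h3 := mul_le_mul_of_nonneg_left b2 hQr
    apply mul_le_mul_of_nonneg_right _ h1
    linarith
  refine (sum_le_sum fun V hV => sum_le_sum fun A hA => s2 V hV A hA).trans ?_
  simp only [← mul_sum]
  have hQr : (0:ℝ) ≤ Q := Nat.cast_nonneg _
  have h1 : 0 ≤ 7 * (Q:ℝ) * (Real.log Q + 5) := by positivity
  have h2 := mul_le_mul_of_nonneg_left hm h1
  calc _ ≤ 7 * (Q:ℝ) * (Real.log Q + 5) * (T:ℝ) ^ 2 := h2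
    _ = _ := by ring

/-- pointwise error -/
theorem omT_err {P : ℕ} (hP : 0 < P) (f : ℕ → ℕ → ℝ) (u1 u2 : ℝ) :
    |f (fl P u1) (fl P u2) - omT P f (u1 / P) (u2 / P) / c4| ≤ er P f (fl P u1) (fl P u2) := by
  have hc : c4 ≠ 0 := c4_pos.ne'
  set z1' := fl P u1 with h1
  set z2' := fl P u2 with h2
  have e1 : omT P f (u1 / P) (u2 / P) / c4 = ∑ z₁ ∈ range P, ∑ z₂ ∈ range P,
      f z₁ z₂ * (fe P (u1 / P - ((z₁ : ℝ) + 1 / 2) / P) * fe P (u2 / P - ((z₂ : ℝ) + 1 / 2) / P)) := by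
    unfold omT
    rw [mul_div_cancel_left₀ _ hc]
  have e2 : f z1' z2' = ∑ z₁ ∈ range P, ∑ z₂ ∈ range P,
      f z1' z2' * (fe P (u1 / P - ((z₁ : ℝ) + 1 / 2) / P) * fe P (u2 / P - ((z₂ : ℝ) + 1 / 2) / P)) := by
    simp only [← mul_sum, fe_sum hP, mul_one]
  rw [e1, e2, ← sum_sub_distrib]
  unfold er
  refine (abs_sum_le_sum_abs _ _).trans (sum_le_sum fun z₁ hz₁ => ?_)
  rw [← sum_sub_distrib]
  refine (abs_sum_le_sum_abs _ _).trans (sum_le_sum fun z₂ hz₂ => ?_)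
  rw [← sub_mul, abs_mul]
  have k1 := fe_kk hP (mem_range.1 hz₁) u1
  have k2 := fe_kk hP (mem_range.1 hz₂) u2
  have n1 := fe_nonneg P (u1 / P - ((z₁ : ℝ) + 1 / 2) / P)
  have n2 := fe_nonneg P (u2 / P - ((z₂ : ℝ) + 1 / 2) / P)
  rw [abs_of_nonneg (mul_nonneg n1 n2), mul_comm, abs_sub_comm]
  apply mul_le_mul_of_nonneg_right _ (abs_nonneg _)
  exact mul_le_mul k1 k2 n2 (kk_nonneg _ _ _)

end GB

end Pool.FD
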