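import Pool.Agent.H38.FD.GB2

/-! MP_1f2761, k = 2: tools for row GBD of board `fd`, part 3: Parseval on a grid, neighbouring
points of a cell. -/

namespace Pool.FD
open Finset Pool.K2

namespace GB

theorem box_sum {β : Type} [AddCommMonoid β] {P N : ℕ} (hN : 2 * P ≤ N) (h : ℤ → β) :
    ∑ z ∈ range N, (if 0 < z ∧ z < 2 * P then h ((P:ℤ) - z) else 0) = ∑ m ∈ Ioo (-(P:ℤ)) P, h m := by
  rw [← sum_filter]
  refine sum_nbij' (fun z : ℕ => (P:ℤ) - z) (fun m : ℤ => ((P:ℤ) - m).toNat) ?_ ?_ ?_ ?_ ?_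
  · intro z hz
    simp only [mem_filter, mem_range] at hz
    simp only [mem_Ioo]
    omega
  · intro m hm
    simp only [mem_Ioo] at hm
    simp only [mem_filter, mem_range]
    omega
  · intro z hz
    simp only [mem_filter, mem_range] at hz
    omega
  · intro m hm
    simp only [mem_Ioo] at hm
    omega
  · intro z _
    rfl

theorem pbox1 {P N : ℕ} (hP : 1 ≤ P) (hN : 2 * P ≤ N) (c : ℤ → ℂ) :
    ∑ j ∈ range N, ‖∑ m ∈ Ioo (-(P:ℤ)) P, c m * ex (m * ((j:ℝ) / N))‖ ^ 2 =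
      N * ∑ m ∈ Ioo (-(P:ℤ)) P, ‖c m‖ ^ 2 := by
  have hN1 : 1 ≤ N := by omega
  have hNr : (N:ℝ) ≠ 0 := by
    have : N ≠ 0 := by omega
    exact_mod_cast this
  have h1 := parseval_one (P := N) hN1 (fun z => if 0 < z ∧ z < 2 * P then c ((P:ℤ) - z) else 0)
  have h2 : ∑ z ∈ range N, ‖(if 0 < z ∧ z < 2 * P then c ((P:ℤ) - z) else 0)‖ ^ 2 =
      ∑ m ∈ Ioo (-(P:ℤ)) P, ‖c m‖ ^ 2 := by
    rw [← box_sum hN (fun m => ‖c m‖ ^ 2)]
    refine sum_congr rfl fun z _ => ?_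
    split_ifs
    · rfl
    · simp
  rw [h2] at h1
  rw [← h1]
  refine sum_congr rfl fun j _ => ?_
  have h3 : ∑ z ∈ range N, (if 0 < z ∧ z < 2 * P then c ((P:ℤ) - z) else 0) * ex (-((j:ℝ) * z / N)) =
      ex (-((j:ℝ) * P / N)) * ∑ m ∈ Ioo (-(P:ℤ)) P, c m * ex (m * ((j:ℝ) / N)) := by
    rw [mul_sum, ← box_sum hN (fun m => ex (-((j:ℝ) * P / N)) * (c m * ex (m * ((j:ℝ) / N))))]
    refine sum_congr rfl fun z _ => ?_
    split_ifs
    · have : ex (-((j:ℝ) * z / N)) = ex (-((j:ℝ) * P / N)) * ex ((((P:ℤ) - z : ℤ) : ℝ) * ((j:ℝ) / N)) := by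
        rw [← ex_add]
        congr 1
        push_cast
        field_simp
        ring
      rw [this]
      ring
    · simp
  rw [h3, norm_mul, ex_norm, one_mul]

theorem pbox2 {P N : ℕ} (hP : 1 ≤ P) (hN : 2 * P ≤ N) (c : ℤ → ℤ → ℂ) :
    ∑ j1 ∈ range N, ∑ j2 ∈ range N, ‖∑ m1 ∈ Ioo (-(P:ℤ)) P, ∑ m2 ∈ Ioo (-(P:ℤ)) P,
      c m1 m2 * ex (m1 * ((j1:ℝ) / N) + m2 * ((j2:ℝ) / N))‖ ^ 2 =
      (N:ℝ) ^ 2 * ∑ m1 ∈ Ioo (-(P:ℤ)) P, ∑ m2 ∈ Ioo (-(P:ℤ)) P, ‖c m1 m2‖ ^ 2 := by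
  have h1 : ∀ j1 ∈ range N, ∑ j2 ∈ range N, ‖∑ m1 ∈ Ioo (-(P:ℤ)) P, ∑ m2 ∈ Ioo (-(P:ℤ)) P,
      c m1 m2 * ex (m1 * ((j1:ℝ) / N) + m2 * ((j2:ℝ) / N))‖ ^ 2 =
      N * ∑ m2 ∈ Ioo (-(P:ℤ)) P, ‖∑ m1 ∈ Ioo (-(P:ℤ)) P, c m1 m2 * ex (m1 * ((j1:ℝ) / N))‖ ^ 2 := by
    intro j1 _
    rw [← pbox1 hP hN (fun m2 => ∑ m1 ∈ Ioo (-(P:ℤ)) P, c m1 m2 * ex (m1 * ((j1:ℝ) / N)))]
    refine sum_congr rfl fun j2 _ => ?_
    congr 2
    rw [sum_comm]
    refine sum_congr rfl fun m2 _ => ?_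
    rw [sum_mul]
    refine sum_congr rfl fun m1 _ => ?_
    rw [ex_add]
    ring
  rw [sum_congr rfl h1, ← mul_sum, sum_comm]
  have h2 : ∀ m2 ∈ Ioo (-(P:ℤ)) P, ∑ j1 ∈ range N, ‖∑ m1 ∈ Ioo (-(P:ℤ)) P, c m1 m2 * ex (m1 * ((j1:ℝ) / N))‖ ^ 2 =
      N * ∑ m1 ∈ Ioo (-(P:ℤ)) P, ‖c m1 m2‖ ^ 2 := fun m2 _ => pbox1 hP hN (fun m1 => c m1 m2)
  rw [sum_congr rfl h2, ← mul_sum, sum_comm]
  ring

/-! ### neighbouring points -/

/-- margin indicator -/
noncomputable def mg (G v : ℕ) : ℝ := if v % G = 0 ∨ v % G = G - 1 then 1 else 0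

theorem mg_nonneg (G v : ℕ) : 0 ≤ mg G v := by unfold mg; split_ifs <;> norm_num

/-- the nine neighbours -/
noncomputable def O9 (T : ℕ) (om : ℕ → ℕ → ℝ) (a b : ℕ) : ℝ :=
  ∑ d1 ∈ range 3, ∑ d2 ∈ range 3, om ((a + (d1 + T - 1)) % T) ((b + (d2 + T - 1)) % T)

noncomputable def Psi (T G : ℕ) (om : ℕ → ℕ → ℝ) (v1 v2 : ℕ) : ℝ := (mg G v1 + mg G v2) * O9 T om (v1 / G) (v2 / G)

theorem O9_nonneg {T : ℕ} {om : ℕ → ℕ → ℝ} (h0 : ∀ a b, 0 ≤ om a b) (a b : ℕ) : 0 ≤ O9 T om a b :=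
  sum_nonneg fun _ _ => sum_nonneg fun _ _ => h0 _ _

theorem O9_ge {T : ℕ} {om : ℕ → ℕ → ℝ} (h0 : ∀ a b, 0 ≤ om a b) (a b : ℕ) {d1 d2 : ℕ} (h1 : d1 < 3) (h2 : d2 < 3) :
    om ((a + (d1 + T - 1)) % T) ((b + (d2 + T - 1)) % T) ≤ O9 T om a b := by
  unfold O9
  refine le_trans ?_ (single_le_sum (f := fun d1 => ∑ d2 ∈ range 3, om ((a + (d1 + T - 1)) % T) ((b + (d2 + T - 1)) % T))
    (fun _ _ => sum_nonneg fun _ _ => h0 _ _) (mem_range.2 h1))
  exact single_le_sum (f := fun d2 => om ((a + (d1 + T - 1)) % T) ((b + (d2 + T - 1)) % T)) (fun _ _ => h0 _ _)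
    (mem_range.2 h2)

theorem near2 {T G v v' e : ℕ} (hT : 0 < T) (hG : 0 < G) (hv' : v' < T * G)
    (he : e = T * G - 1 ∨ e = T * G ∨ e = T * G + 1) (hv : v = (v' + e) % (T * G)) :
    (∃ d, d < 3 ∧ v / G = (v' / G + (d + T - 1)) % T) ∧ (v / G = v' / G ∨ mg G v' = 1) := by
  have hK : 0 < T * G := Nat.mul_pos hT hG
  have hlt : v' / G < T := by rw [Nat.div_lt_iff_lt_mul hG]; exact hv'
  have same : v / G = v' / G → ∃ d, d < 3 ∧ v / G = (v' / G + (d + T - 1)) % T := by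
    intro h
    refine ⟨1, by norm_num, ?_⟩
    rw [h]
    have : v' / G + (1 + T - 1) = v' / G + T := by omega
    rw [this, Nat.add_mod_right, Nat.mod_eq_of_lt hlt]
  set a := v' / G with ha
  set r := v' % G with hr
  have hrG : r < G := Nat.mod_lt _ hG
  have hvr : v' = a * G + r := by
    have := Nat.div_add_mod v' G
    rw [← ha, ← hr] at this
    rw [← this]; ring
  rcases he with he | he | he
  · -- minus one
    by_cases hr0 : r = 0
    · have hm : mg G v' = 1 := by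
        unfold mg; rw [if_pos (Or.inl hr0)]
      refine ⟨⟨0, by norm_num, ?_⟩, Or.inr hm⟩
      -- v' = a G
      rcases Nat.eq_zero_or_pos a with h0 | hpos
      · have e1 : v = (T - 1) * G + (G - 1) := by
          rw [hv, he, hvr, hr0, h0]
          have e2 : 0 * G + 0 + (T * G - 1) = (T - 1) * G + (G - 1) := by
            obtain ⟨T', rfl⟩ : ∃ T', T = T' + 1 := ⟨T - 1, by omega⟩
            have : (T' + 1) * G = T' * G + G := by ring
            rw [this, Nat.add_sub_cancel]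
            omega
          rw [e2, Nat.mod_eq_of_lt]
          obtain ⟨T', rfl⟩ : ∃ T', T = T' + 1 := ⟨T - 1, by omega⟩
          have : (T' + 1) * G = T' * G + G := by ring
          rw [this, Nat.add_sub_cancel]
          omega
        rw [e1, h0]
        have e3 : ((T - 1) * G + (G - 1)) / G = T - 1 := by
          rw [mul_comm, Nat.mul_add_div hG, Nat.div_eq_of_lt (by omega), Nat.add_zero]
        rw [e3]
        have e4 : 0 + (0 + T - 1) = T - 1 := by omega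
        rw [e4, Nat.mod_eq_of_lt (by omega)]
      · obtain ⟨a', ha'⟩ : ∃ a', a = a' + 1 := ⟨a - 1, by omega⟩
        have e1 : v = a' * G + (G - 1) := by
          rw [hv, he, hvr, hr0, ha']
          have e2 : (a' + 1) * G + 0 + (T * G - 1) = (a' * G + (G - 1)) + T * G := by
            have : (a' + 1) * G = a' * G + G := by ring
            omega
          rw [e2, Nat.add_mod_right, Nat.mod_eq_of_lt]
          have h3 : (a' + 1) * G ≤ T * G := Nat.mul_le_mul_right _ (by omega)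
          have : (a' + 1) * G = a' * G + G := by ring
          omega
        rw [e1]
        have e3 : (a' * G + (G - 1)) / G = a' := by
          rw [mul_comm, Nat.mul_add_div hG, Nat.div_eq_of_lt (by omega), Nat.add_zero]
        rw [e3, ha']
        have e4 : a' + 1 + (0 + T - 1) = a' + T := by omega
        rw [e4, Nat.add_mod_right, Nat.mod_eq_of_lt (by omega)]
    · have e1 : v = a * G + (r - 1) := by
        rw [hv, he, hvr]
        have e2 : a * G + r + (T * G - 1) = (a * G + (r - 1)) + T * G := by omega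
        rw [e2, Nat.add_mod_right, Nat.mod_eq_of_lt]
        omega
      have e3 : v / G = a := by
        rw [e1, mul_comm, Nat.mul_add_div hG, Nat.div_eq_of_lt (by omega), Nat.add_zero]
      exact ⟨same e3, Or.inl e3⟩
  · have e1 : v = v' := by rw [hv, he, Nat.add_mod_right, Nat.mod_eq_of_lt hv']
    have e3 : v / G = a := by rw [e1]
    exact ⟨same e3, Or.inl e3⟩
  · by_cases hr0 : r = G - 1
    · have hm : mg G v' = 1 := by
        unfold mg; rw [if_pos (Or.inr hr0)]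
      refine ⟨⟨2, by norm_num, ?_⟩, Or.inr hm⟩
      have e0 : v' + e = (a + 1) * G + T * G := by
        rw [he, hvr, hr0]
        have : (a + 1) * G = a * G + G := by ring
        omega
      rw [hv, e0, Nat.add_mod_right, Nat.mul_mod_mul_right, Nat.mul_div_cancel _ hG]
      have e4 : a + (2 + T - 1) = (a + 1) + T := by omega
      rw [e4, Nat.add_mod_right]
    · have e1 : v = a * G + (r + 1) := by
        rw [hv, he, hvr]
        have e2 : a * G + r + (T * G + 1) = (a * G + (r + 1)) + T * G := by omega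
        rw [e2, Nat.add_mod_right, Nat.mod_eq_of_lt]
        have h3 : (a + 1) * G ≤ T * G := Nat.mul_le_mul_right _ (by omega)
        have : (a + 1) * G = a * G + G := by ring
        omega
      have e3 : v / G = a := by
        rw [e1, mul_comm, Nat.mul_add_div hG, Nat.div_eq_of_lt (by omega), Nat.add_zero]
      exact ⟨same e3, Or.inl e3⟩

theorem near1 {K : ℕ} (hK : 0 < K) {x x' : ℝ} (h : ix K x = ix K x') (c : ℝ) :
    ∃ e, (e = K - 1 ∨ e = K ∨ e = K + 1) ∧ fl K (K * x + c) = (fl K (K * x' + c) + e) % K := by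
  obtain ⟨n, hn⟩ := fl_spec hK (K * x)
  obtain ⟨n', hn'⟩ := fl_spec hK (K * x')
  unfold ix at h
  obtain ⟨m', hm'⟩ := fl_spec hK (K * x' + c)
  set v' := fl K (K * x' + c) with hv'
  -- floor of K x + c
  have hfl : ⌊(K:ℝ) * x⌋ = ⌊(K:ℝ) * x'⌋ + K * (n - n') := by
    rw [hn, hn', h]; ring
  have hfl' : (⌊(K:ℝ) * x⌋ : ℝ) = ⌊(K:ℝ) * x'⌋ + K * (n - n' : ℤ) := by exact_mod_cast hfl
  have a1 := Int.floor_le ((K:ℝ) * x)
  have a2 := Int.lt_floor_add_one ((K:ℝ) * x)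
  have b1 := Int.floor_le ((K:ℝ) * x')
  have b2 := Int.lt_floor_add_one ((K:ℝ) * x')
  have c1 := Int.floor_le ((K:ℝ) * x' + c)
  have c2 := Int.lt_floor_add_one ((K:ℝ) * x' + c)
  have d1 := Int.floor_le ((K:ℝ) * x + c)
  have d2 := Int.lt_floor_add_one ((K:ℝ) * x + c)
  have lo : ⌊(K:ℝ) * x' + c⌋ + K * (n - n') - 1 ≤ ⌊(K:ℝ) * x + c⌋ := by
    have : ((⌊(K:ℝ) * x' + c⌋ + K * (n - n') - 1 : ℤ) : ℝ) < ⌊(K:ℝ) * x + c⌋ + 1 := by
      push_cast at hfl' ⊢
      linarith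
    have : (⌊(K:ℝ) * x' + c⌋ + K * (n - n') - 1 : ℤ) < ⌊(K:ℝ) * x + c⌋ + 1 := by exact_mod_cast this
    omega
  have hi : ⌊(K:ℝ) * x + c⌋ ≤ ⌊(K:ℝ) * x' + c⌋ + K * (n - n') + 1 := by
    have : ((⌊(K:ℝ) * x + c⌋ : ℤ) : ℝ) < ⌊(K:ℝ) * x' + c⌋ + K * (n - n' : ℤ) + 2 := by
      push_cast at hfl' ⊢
      linarith
    have : (⌊(K:ℝ) * x + c⌋ : ℤ) < ⌊(K:ℝ) * x' + c⌋ + K * (n - n') + 2 := by exact_mod_cast this
    omega
  have key : ∀ e : ℕ, ⌊(K:ℝ) * x + c⌋ = ⌊(K:ℝ) * x' + c⌋ + K * (n - n') + ((e:ℤ) - K) →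
      fl K (K * x + c) = (v' + e) % K := by
    intro e he
    refine fl_of _ (Nat.mod_lt _ hK) (m' + (n - n') - 1 + ((v' + e) / K : ℕ)) ?_
    rw [he, hm']
    have h1 : (v' + e) % K + K * ((v' + e) / K) = v' + e := Nat.mod_add_div _ _
    have h2 : (((v' + e) % K : ℕ) : ℤ) + K * ((v' + e) / K : ℕ) = v' + e := by exact_mod_cast h1
    linear_combination -h2
  rcases (by omega : ⌊(K:ℝ) * x + c⌋ = ⌊(K:ℝ) * x' + c⌋ + K * (n - n') + (-1) ∨
      ⌊(K:ℝ) * x + c⌋ = ⌊(K:ℝ) * x' + c⌋ + K * (n - n') + 0 ∨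
      ⌊(K:ℝ) * x + c⌋ = ⌊(K:ℝ) * x' + c⌋ + K * (n - n') + 1) with h1 | h1 | h1
  · refine ⟨K - 1, Or.inl rfl, key _ ?_⟩
    rw [h1]; push_cast [hK]; ring
  · refine ⟨K, Or.inr (Or.inl rfl), key _ ?_⟩
    rw [h1]; ring
  · refine ⟨K + 1, Or.inr (Or.inr rfl), key _ ?_⟩
    rw [h1]; push_cast; ring

/-- two points of one cell -/
theorem near {T G : ℕ} (hT : 0 < T) (hG : 0 < G) {om : ℕ → ℕ → ℝ} (h0 : ∀ a b, 0 ≤ om a b)
    {x1 x2 x1' x2' : ℝ} (h1 : ix (T * G) x1 = ix (T * G) x1') (h2 : ix (T * G) x2 = ix (T * G) x2') (c1 c2 : ℝ) :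
    |om (fl T (T * x1 + c1)) (fl T (T * x2 + c2)) - om (fl T (T * x1' + c1)) (fl T (T * x2' + c2))| ≤
      Psi T G om (fl (T * G) ((T * G : ℕ) * x1' + G * c1)) (fl (T * G) ((T * G : ℕ) * x2' + G * c2)) := by
  have hK : 0 < T * G := Nat.mul_pos hT hG
  have conv : ∀ x c : ℝ, fl T (T * x + c) = fl (T * G) ((T * G : ℕ) * x + G * c) / G := by
    intro x c
    rw [← fl_div hT hG]
    congr 2
    push_cast
    ring
  obtain ⟨e1, he1, hv1⟩ := near1 hK h1 (G * c1)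
  obtain ⟨e2, he2, hv2⟩ := near1 hK h2 (G * c2)
  have hl1 : fl (T * G) ((T * G : ℕ) * x1' + G * c1) < T * G := fl_lt hK _
  have hl2 : fl (T * G) ((T * G : ℕ) * x2' + G * c2) < T * G := fl_lt hK _
  rw [conv x1, conv x2, conv x1', conv x2']
  set v1 := fl (T * G) ((T * G : ℕ) * x1 + G * c1)
  set v2 := fl (T * G) ((T * G : ℕ) * x2 + G * c2)
  set v1' := fl (T * G) ((T * G : ℕ) * x1' + G * c1)
  set v2' := fl (T * G) ((T * G : ℕ) * x2' + G * c2)
  obtain ⟨⟨d1, hd1, hq1⟩, hs1⟩ := near2 hT hG hl1 he1 hv1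
  obtain ⟨⟨d2, hd2, hq2⟩, hs2⟩ := near2 hT hG hl2 he2 hv2
  have n1 := mg_nonneg G v1'
  have n2 := mg_nonneg G v2'
  have nO := O9_nonneg (T := T) h0 (v1' / G) (v2' / G)
  by_cases hc : v1 / G = v1' / G ∧ v2 / G = v2' / G
  · rw [hc.1, hc.2, sub_self, abs_zero]
    exact mul_nonneg (add_nonneg n1 n2) nO
  · have hm : 1 ≤ mg G v1' + mg G v2' := by
      by_cases c1' : v1 / G = v1' / G
      · have c2' : v2 / G ≠ v2' / G := fun h => hc ⟨c1', h⟩
        have := hs2.resolve_left c2'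
        linarith
      · have := hs1.resolve_left c1'
        linarith
    have hA : om (v1 / G) (v2 / G) ≤ O9 T om (v1' / G) (v2' / G) := by
      rw [hq1, hq2]
      exact O9_ge h0 _ _ hd1 hd2
    have hB : om (v1' / G) (v2' / G) ≤ O9 T om (v1' / G) (v2' / G) := by
      have := O9_ge (T := T) h0 (v1' / G) (v2' / G) (d1 := 1) (d2 := 1) (by norm_num) (by norm_num)
      have l1 : v1' / G < T := by rw [Nat.div_lt_iff_lt_mul hG]; exact hl1
      have l2 : v2' / G < T := by rw [Nat.div_lt_iff_lt_mul hG]; exact hl2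
      have e3 : ∀ a, a < T → (a + (1 + T - 1)) % T = a := by
        intro a ha
        have : a + (1 + T - 1) = a + T := by omega
        rw [this, Nat.add_mod_right, Nat.mod_eq_of_lt ha]
      rw [e3 _ l1, e3 _ l2] at this
      exact this
    have z1 := h0 (v1 / G) (v2 / G)
    have z2 := h0 (v1' / G) (v2' / G)
    unfold Psi
    rw [abs_le]
    constructor <;> nlinarith

theorem psi_sum {T G : ℕ} (hT : 0 < T) (hG : 0 < G) {om : ℕ → ℕ → ℝ} (h0 : ∀ a b, 0 ≤ om a b)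
    (hm : ∑ V ∈ range T, ∑ a ∈ range T, om V a ≤ (T:ℝ) ^ 2) :
    ∑ v1 ∈ range (T * G), ∑ v2 ∈ range (T * G), Psi T G om v1 v2 ≤ 36 * G * (T:ℝ) ^ 2 := by
  have hmg : ∑ r ∈ range G, mg G r ≤ 2 := by
    have h1 : ∀ r ∈ range G, mg G r ≤ (if r = 0 then 1 else 0) + (if r = G - 1 then 1 else 0) := by
      intro r hr
      have hr' := mem_range.1 hr
      unfold mg
      rw [Nat.mod_eq_of_lt hr']
      by_cases c1 : r = 0
      · rw [if_pos (Or.inl c1), if_pos c1]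
        split_ifs <;> norm_num
      · by_cases c2 : r = G - 1
        · rw [if_pos (Or.inr c2), if_neg c1, if_pos c2]
          norm_num
        · rw [if_neg (by tauto), if_neg c1, if_neg c2]
          norm_num
    refine (sum_le_sum h1).trans ?_
    rw [sum_add_distrib, sum_ite_eq', sum_ite_eq']
    rw [if_pos (mem_range.2 hG), if_pos (mem_range.2 (by omega))]
    norm_num
  rw [sum_cells₂ T G (fun v1 v2 => Psi T G om v1 v2)]
  have d : ∀ (c j : ℕ), j < G → (c * G + j) / G = c := by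
    intro c j hj
    rw [mul_comm c G, Nat.mul_add_div hG, Nat.div_eq_of_lt hj, Nat.add_zero]
  have dm : ∀ (c j : ℕ), mg G (c * G + j) = mg G j := by
    intro c j
    unfold mg
    rw [add_comm (c * G) j, Nat.add_mul_mod_self_right]
  have s2 : ∀ V ∈ range T, ∀ A ∈ range T, ∑ j1 ∈ range G, ∑ j2 ∈ range G, Psi T G om (V * G + j1) (A * G + j2) ≤
      4 * G * O9 T om V A := by
    intro V _ A _
    have e2 : ∑ j1 ∈ range G, ∑ j2 ∈ range G, Psi T G om (V * G + j1) (A * G + j2) =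
        (2 * (G * ∑ r ∈ range G, mg G r)) * O9 T om V A := by
      have e3 : ∀ j1 ∈ range G, ∑ j2 ∈ range G, Psi T G om (V * G + j1) (A * G + j2) =
          (G * mg G j1 + ∑ r ∈ range G, mg G r) * O9 T om V A := by
        intro j1 hj1
        have e4 : ∀ j2 ∈ range G, Psi T G om (V * G + j1) (A * G + j2) = (mg G j1 + mg G j2) * O9 T om V A := by
          intro j2 hj2
          unfold Psi
          rw [d _ _ (mem_range.1 hj1), d _ _ (mem_range.1 hj2), dm, dm]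
        rw [sum_congr rfl e4, ← sum_mul, sum_add_distrib]
        simp only [sum_const, card_range, nsmul_eq_mul]
      rw [sum_congr rfl e3, ← sum_mul, sum_add_distrib, ← mul_sum]
      simp only [sum_const, card_range, nsmul_eq_mul]
      ring
    rw [e2]
    apply mul_le_mul_of_nonneg_right _ (O9_nonneg h0 _ _)
    have hGr : (0:ℝ) ≤ G := Nat.cast_nonneg _
    nlinarith
  refine (sum_le_sum fun V hV => sum_le_sum fun A hA => s2 V hV A hA).trans ?_
  simp only [← mul_sum]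
  have s3 : ∑ V ∈ range T, ∑ A ∈ range T, O9 T om V A ≤ 9 * (T:ℝ) ^ 2 := by
    have e5 : ∑ V ∈ range T, ∑ A ∈ range T, O9 T om V A =
        ∑ d1 ∈ range 3, ∑ d2 ∈ range 3, ∑ V ∈ range T, ∑ A ∈ range T,
          om ((V + (d1 + T - 1)) % T) ((A + (d2 + T - 1)) % T) := by
      unfold O9
      have c1 : ∀ V ∈ range T, ∑ A ∈ range T, ∑ d1 ∈ range 3, ∑ d2 ∈ range 3,
          om ((V + (d1 + T - 1)) % T) ((A + (d2 + T - 1)) % T) =
          ∑ d1 ∈ range 3, ∑ d2 ∈ range 3, ∑ A ∈ range T, om ((V + (d1 + T - 1)) % T) ((A + (d2 + T - 1)) % T) := by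
        intro V _
        rw [sum_comm]
        exact sum_congr rfl fun d1 _ => sum_comm
      rw [sum_congr rfl c1, sum_comm]
      exact sum_congr rfl fun d1 _ => sum_comm
    rw [e5]
    have c2 : ∀ d1 ∈ range 3, ∀ d2 ∈ range 3, ∑ V ∈ range T, ∑ A ∈ range T,
          om ((V + (d1 + T - 1)) % T) ((A + (d2 + T - 1)) % T) ≤ (T:ℝ) ^ 2 := by
      intro d1 _ d2 _
      have c3 : ∀ V ∈ range T, ∑ A ∈ range T, om ((V + (d1 + T - 1)) % T) ((A + (d2 + T - 1)) % T) =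
          (fun V' => ∑ A ∈ range T, om V' A) ((V + (d1 + T - 1)) % T) := by
        intro V _
        exact cyc hT (fun A => om ((V + (d1 + T - 1)) % T) A) (d2 + T - 1)
      rw [sum_congr rfl c3, cyc hT (fun V' => ∑ A ∈ range T, om V' A) (d1 + T - 1)]
      exact hm
    refine (sum_le_sum fun d1 h1 => sum_le_sum fun d2 h2 => c2 d1 h1 d2 h2).trans ?_
    simp only [sum_const, card_range, nsmul_eq_mul]
    push_cast
    linarith
  have hGr : (0:ℝ) ≤ 4 * G := by positivity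
  have := mul_le_mul_of_nonneg_left s3 hGr
  linarith

end GB

end Pool.FD
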