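import Pool.Agent.H84.FD.S
import Pool.Agent.H42.K2.Sca

/-! MP_1f2761, k = 2: row RG2 of board `fd` (regularity of products). -/

namespace Pool.FD
open Finset Pool.K2

theorem rg2 : RG2Stmt := by
  intro q t u kap Cf Sf Cg Mg f g hq hk f0 g0 hf hfs hg hgs hCf hSf hCg hMg i hi a ha b hb
  have hq0 : 0 < q := by omega
  have hqr : (0:ℝ) < q := by exact_mod_cast hq0
  have hU : 0 < q ^ u := pow_pos hq0 _
  have hmax1 : Cf * Mg ≤ max (Cf * Mg) (Sf * Cg) := le_max_left _ _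
  have hmax2 : Sf * Cg ≤ max (Cf * Mg) (Sf * Cg) := le_max_right _ _
  have hgsum0 : 0 ≤ ∑ a ∈ range (q ^ u), ∑ b ∈ range (q ^ u), g a b := sum_nonneg fun _ _ => sum_nonneg fun _ _ => g0 _ _
  rcases le_or_gt i t with hit | hit
  · -- cells of the top part
    have eR : q ^ (t + u - i) = q ^ (t - i) * q ^ u := by rw [← pow_add]; congr 1; omega
    have e1 : ∑ z₁ ∈ range (q ^ (t + u - i)), ∑ z₂ ∈ range (q ^ (t + u - i)),
        pr2 q u f g (a * q ^ (t + u - i) + z₁) (b * q ^ (t + u - i) + z₂) =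
        (∑ y₁ ∈ range (q ^ (t - i)), ∑ y₂ ∈ range (q ^ (t - i)), f (a * q ^ (t - i) + y₁) (b * q ^ (t - i) + y₂)) *
          ∑ x₁ ∈ range (q ^ u), ∑ x₂ ∈ range (q ^ u), g x₁ x₂ := by
      rw [eR, sum_cells₂ (q ^ (t - i)) (q ^ u)
        (fun z₁ z₂ => pr2 q u f g (a * (q ^ (t - i) * q ^ u) + z₁) (b * (q ^ (t - i) * q ^ u) + z₂))]
      rw [sum_mul]
      refine sum_congr rfl fun y₁ _ => ?_
      rw [sum_mul]
      refine sum_congr rfl fun y₂ _ => ?_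
      rw [mul_sum]
      refine sum_congr rfl fun x₁ hx₁ => ?_
      rw [mul_sum]
      refine sum_congr rfl fun x₂ hx₂ => ?_
      have d : ∀ (c y x : ℕ), x < q ^ u → (c * (q ^ (t - i) * q ^ u) + (y * q ^ u + x)) / q ^ u = c * q ^ (t - i) + y ∧
          (c * (q ^ (t - i) * q ^ u) + (y * q ^ u + x)) % q ^ u = x := by
        intro c y x hx
        have e : c * (q ^ (t - i) * q ^ u) + (y * q ^ u + x) = x + (c * q ^ (t - i) + y) * q ^ u := by ring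
        rw [e, Nat.add_mul_div_right _ _ hU, Nat.add_mul_mod_self_right, Nat.div_eq_of_lt hx, Nat.mod_eq_of_lt hx]
        simp
      unfold pr2
      rw [(d a y₁ x₁ (mem_range.1 hx₁)).1, (d a y₁ x₁ (mem_range.1 hx₁)).2, (d b y₂ x₂ (mem_range.1 hx₂)).1,
        (d b y₂ x₂ (mem_range.1 hx₂)).2]
    rw [e1]
    have h1 := hf i hit a ha b hb
    have hA : 0 ≤ Cf * ((q:ℝ) ^ i) ^ kap * ((q:ℝ) ^ (t - i)) ^ 2 := by positivity
    calc _ ≤ (Cf * ((q:ℝ) ^ i) ^ kap * ((q:ℝ) ^ (t - i)) ^ 2) * (Mg * ((q:ℝ) ^ u) ^ 2) :=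
          mul_le_mul h1 hgs hgsum0 hA
      _ = (Cf * Mg) * ((q:ℝ) ^ i) ^ kap * ((q:ℝ) ^ (t + u - i)) ^ 2 := by
          have : (q:ℝ) ^ (t + u - i) = (q:ℝ) ^ (t - i) * (q:ℝ) ^ u := by rw [← pow_add]; congr 1; omega
          rw [this]; ring
      _ ≤ _ := by
          have : 0 ≤ ((q:ℝ) ^ i) ^ kap * ((q:ℝ) ^ (t + u - i)) ^ 2 := by positivity
          nlinarith
  · -- cells of the bottom part
    obtain ⟨j, rfl⟩ : ∃ j, i = t + j := ⟨i - t, by omega⟩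
    have hj : j ≤ u := by omega
    have eR : q ^ (t + u - (t + j)) = q ^ (u - j) := by congr 1; omega
    have hJ : 0 < q ^ j := pow_pos hq0 _
    have eU : q ^ u = q ^ j * q ^ (u - j) := by rw [← pow_add]; congr 1; omega
    have d : ∀ (c z : ℕ), z < q ^ (u - j) → (c * q ^ (u - j) + z) / q ^ u = c / q ^ j ∧
        (c * q ^ (u - j) + z) % q ^ u = (c % q ^ j) * q ^ (u - j) + z := by
      intro c z hz
      have hlt : (c % q ^ j) * q ^ (u - j) + z < q ^ u := by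
        have h3 : c % q ^ j < q ^ j := Nat.mod_lt _ hJ
        calc (c % q ^ j) * q ^ (u - j) + z < (c % q ^ j) * q ^ (u - j) + q ^ (u - j) := by omega
          _ = (c % q ^ j + 1) * q ^ (u - j) := by ring
          _ ≤ q ^ j * q ^ (u - j) := Nat.mul_le_mul_right _ h3
          _ = q ^ u := eU.symm
      have e : c * q ^ (u - j) + z = ((c % q ^ j) * q ^ (u - j) + z) + (c / q ^ j) * q ^ u := by
        rw [eU]
        conv_lhs => rw [← Nat.mod_add_div c (q ^ j)]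
        ring
      rw [e, Nat.add_mul_div_right _ _ hU, Nat.add_mul_mod_self_right, Nat.div_eq_of_lt hlt, Nat.mod_eq_of_lt hlt]
      simp
    have ha' : a / q ^ j < q ^ t := by
      rw [Nat.div_lt_iff_lt_mul hJ, ← pow_add]; exact ha
    have hb' : b / q ^ j < q ^ t := by
      rw [Nat.div_lt_iff_lt_mul hJ, ← pow_add]; exact hb
    have e1 : ∑ z₁ ∈ range (q ^ (t + u - (t + j))), ∑ z₂ ∈ range (q ^ (t + u - (t + j))),
        pr2 q u f g (a * q ^ (t + u - (t + j)) + z₁) (b * q ^ (t + u - (t + j)) + z₂) =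
        f (a / q ^ j) (b / q ^ j) * ∑ z₁ ∈ range (q ^ (u - j)), ∑ z₂ ∈ range (q ^ (u - j)),
          g ((a % q ^ j) * q ^ (u - j) + z₁) ((b % q ^ j) * q ^ (u - j) + z₂) := by
      rw [eR, mul_sum]
      refine sum_congr rfl fun z₁ hz₁ => ?_
      rw [mul_sum]
      refine sum_congr rfl fun z₂ hz₂ => ?_
      unfold pr2
      rw [(d a z₁ (mem_range.1 hz₁)).1, (d a z₁ (mem_range.1 hz₁)).2, (d b z₂ (mem_range.1 hz₂)).1,
        (d b z₂ (mem_range.1 hz₂)).2]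
    rw [e1]
    have h1 := hg j hj (a % q ^ j) (Nat.mod_lt _ hJ) (b % q ^ j) (Nat.mod_lt _ hJ)
    have h2 := hfs _ ha' _ hb'
    have h3 : 0 ≤ ∑ z₁ ∈ range (q ^ (u - j)), ∑ z₂ ∈ range (q ^ (u - j)),
          g ((a % q ^ j) * q ^ (u - j) + z₁) ((b % q ^ j) * q ^ (u - j) + z₂) :=
      sum_nonneg fun _ _ => sum_nonneg fun _ _ => g0 _ _
    have h4 : 0 ≤ Sf * ((q:ℝ) ^ t) ^ kap := by positivity
    have h5 : ((q:ℝ) ^ t) ^ kap * ((q:ℝ) ^ j) ^ kap = ((q:ℝ) ^ (t + j)) ^ kap := by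
      rw [pow_add, Real.mul_rpow (by positivity) (by positivity)]
    calc _ ≤ (Sf * ((q:ℝ) ^ t) ^ kap) * (Cg * ((q:ℝ) ^ j) ^ kap * ((q:ℝ) ^ (u - j)) ^ 2) :=
          mul_le_mul h2 h1 h3 h4
      _ = (Sf * Cg) * (((q:ℝ) ^ t) ^ kap * ((q:ℝ) ^ j) ^ kap) * ((q:ℝ) ^ (u - j)) ^ 2 := by ring
      _ = (Sf * Cg) * ((q:ℝ) ^ (t + j)) ^ kap * ((q:ℝ) ^ (t + u - (t + j))) ^ 2 := by
          rw [h5]
          have : (q:ℝ) ^ (t + u - (t + j)) = (q:ℝ) ^ (u - j) := by congr 1; omega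
          rw [this]
      _ ≤ _ := by
          have : 0 ≤ ((q:ℝ) ^ (t + j)) ^ kap * ((q:ℝ) ^ (t + u - (t + j))) ^ 2 := by positivity
          nlinarith

end Pool.FD
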