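import Pool.Agent.H84.FD.S

/-! MP_1f2761, k = 2: row RGP of board `fd` (regularity of `1 + 2 omega^+`). -/

namespace Pool.FD
open Finset Pool.K2

/-- one-dimensional shift: a cell shifted by `d ∈ {0,1}` is covered by two cells -/
theorem rgp_shift {Q R : ℕ} (hQ : 0 < Q) (hR : 0 < R) (h : ℕ → ℝ) (h0 : ∀ z, 0 ≤ h z) {a : ℕ} (ha : a < Q)
    {d : ℕ} (hd : d < 2) :
    ∑ z ∈ range R, h ((a * R + z + Q * R - d) % (Q * R)) ≤
      ∑ y ∈ range R, h (a * R + y) + ∑ y ∈ range R, h (((a + Q - 1) % Q) * R + y) := by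
  have hlt : ∀ z < R, a * R + z < Q * R := by
    intro z hz
    calc a * R + z < a * R + R := by omega
      _ = (a + 1) * R := by ring
      _ ≤ Q * R := Nat.mul_le_mul_right _ ha
  have hd' : d = 0 ∨ d = 1 := by omega
  rcases hd' with rfl | rfl
  · have h1 : ∀ z ∈ range R, h ((a * R + z + Q * R - 0) % (Q * R)) = h (a * R + z) := by
      intro z hz
      rw [Nat.sub_zero, Nat.add_mod_right, Nat.mod_eq_of_lt (hlt z (mem_range.1 hz))]
    rw [sum_congr rfl h1]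
    have h2 : 0 ≤ ∑ y ∈ range R, h (((a + Q - 1) % Q) * R + y) := sum_nonneg fun _ _ => h0 _
    linarith
  · obtain ⟨R', rfl⟩ : ∃ R', R = R' + 1 := ⟨R - 1, by omega⟩
    rw [sum_range_succ' (fun z => h ((a * (R' + 1) + z + Q * (R' + 1) - 1) % (Q * (R' + 1))))]
    have h1 : ∀ z ∈ range R', h ((a * (R' + 1) + (z + 1) + Q * (R' + 1) - 1) % (Q * (R' + 1))) =
        h (a * (R' + 1) + z) := by
      intro z hz
      have hz' := mem_range.1 hz
      have e : a * (R' + 1) + (z + 1) + Q * (R' + 1) - 1 = (a * (R' + 1) + z) + Q * (R' + 1) := by omega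
      rw [e, Nat.add_mod_right, Nat.mod_eq_of_lt (hlt z (by omega))]
    rw [sum_congr rfl h1]
    have h2 : (a * (R' + 1) + 0 + Q * (R' + 1) - 1) % (Q * (R' + 1)) = ((a + Q - 1) % Q) * (R' + 1) + R' := by
      have e : a * (R' + 1) + 0 + Q * (R' + 1) - 1 = (a + Q - 1) * (R' + 1) + R' := by
        obtain ⟨Q', rfl⟩ : ∃ Q', Q = Q' + 1 := ⟨Q - 1, by omega⟩
        have : a + (Q' + 1) - 1 = a + Q' := by omega
        rw [this]
        have : a * (R' + 1) + 0 + (Q' + 1) * (R' + 1) = (a + Q') * (R' + 1) + R' + 1 := by ring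
        omega
      rw [e]
      have e2 : (a + Q - 1) * (R' + 1) + R' =
          (((a + Q - 1) % Q) * (R' + 1) + R') + ((a + Q - 1) / Q) * (Q * (R' + 1)) := by
        conv_lhs => rw [← Nat.mod_add_div (a + Q - 1) Q]
        ring
      rw [e2, Nat.add_mul_mod_self_right, Nat.mod_eq_of_lt]
      have h3 : (a + Q - 1) % Q < Q := Nat.mod_lt _ hQ
      calc ((a + Q - 1) % Q) * (R' + 1) + R' < ((a + Q - 1) % Q) * (R' + 1) + (R' + 1) := by omega
        _ = ((a + Q - 1) % Q + 1) * (R' + 1) := by ring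
        _ ≤ Q * (R' + 1) := Nat.mul_le_mul_right _ h3
    rw [h2]
    have h3 : ∑ z ∈ range R', h (a * (R' + 1) + z) ≤ ∑ y ∈ range (R' + 1), h (a * (R' + 1) + y) := by
      rw [sum_range_succ]
      have := h0 (a * (R' + 1) + R')
      linarith
    have h4 : h (((a + Q - 1) % Q) * (R' + 1) + R') ≤
        ∑ y ∈ range (R' + 1), h (((a + Q - 1) % Q) * (R' + 1) + y) := by
      rw [sum_range_succ]
      have : 0 ≤ ∑ y ∈ range R', h (((a + Q - 1) % Q) * (R' + 1) + y) := sum_nonneg fun _ _ => h0 _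
      linarith
    exact add_le_add h3 h4

theorem rgp : RGPStmt := by
  intro q t kap C om hq hk hC h0 hreg i hi a ha b hb
  have hq0 : 0 < q := by omega
  have hQ : 0 < q ^ i := pow_pos hq0 _
  have hR : 0 < q ^ (t - i) := pow_pos hq0 _
  have hT : q ^ t = q ^ i * q ^ (t - i) := by rw [← pow_add]; congr 1; omega
  set Q := q ^ i with hQd
  set R := q ^ (t - i) with hRd
  have hQr : (1:ℝ) ≤ ((q:ℝ) ^ i) ^ kap := by
    apply Real.one_le_rpow _ hk
    exact one_le_pow₀ (by exact_mod_cast (by omega : 1 ≤ q))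
  have hB : ∀ a' < Q, ∀ b' < Q, ∑ z₁ ∈ range R, ∑ z₂ ∈ range R, om (a' * R + z₁) (b' * R + z₂) ≤
      C * ((q:ℝ) ^ i) ^ kap * ((q:ℝ) ^ (t - i)) ^ 2 := fun a' ha' b' hb' => hreg i hi a' ha' b' hb'
  set W := C * ((q:ℝ) ^ i) ^ kap * ((q:ℝ) ^ (t - i)) ^ 2 with hW
  have ha1 : (a + Q - 1) % Q < Q := Nat.mod_lt _ hQ
  have hb1 : (b + Q - 1) % Q < Q := Nat.mod_lt _ hQ
  have key : ∀ d1 ∈ range 2, ∀ d2 ∈ range 2, ∑ z₁ ∈ range R, ∑ z₂ ∈ range R,
      om ((a * R + z₁ + q ^ t - d1) % q ^ t) ((b * R + z₂ + q ^ t - d2) % q ^ t) ≤ 4 * W := by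
    intro d1 hd1 d2 hd2
    rw [hT]
    have s1 : ∀ z₁ ∈ range R, ∑ z₂ ∈ range R,
        om ((a * R + z₁ + Q * R - d1) % (Q * R)) ((b * R + z₂ + Q * R - d2) % (Q * R)) ≤
        ∑ y ∈ range R, om ((a * R + z₁ + Q * R - d1) % (Q * R)) (b * R + y) +
        ∑ y ∈ range R, om ((a * R + z₁ + Q * R - d1) % (Q * R)) (((b + Q - 1) % Q) * R + y) := by
      intro z₁ _
      exact rgp_shift hQ hR (fun z => om ((a * R + z₁ + Q * R - d1) % (Q * R)) z) (fun z => h0 _ _) hb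
        (mem_range.1 hd2)
    refine (sum_le_sum s1).trans ?_
    rw [sum_add_distrib, sum_comm, sum_comm (s := range R) (t := range R)
      (f := fun z₁ y => om ((a * R + z₁ + Q * R - d1) % (Q * R)) (((b + Q - 1) % Q) * R + y))]
    have s2 : ∀ b' < Q, ∑ y ∈ range R, ∑ z₁ ∈ range R,
        om ((a * R + z₁ + Q * R - d1) % (Q * R)) (b' * R + y) ≤ 2 * W := by
      intro b' hb'
      have s3 : ∀ y ∈ range R, ∑ z₁ ∈ range R,
          om ((a * R + z₁ + Q * R - d1) % (Q * R)) (b' * R + y) ≤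
          ∑ z₁ ∈ range R, om (a * R + z₁) (b' * R + y) +
          ∑ z₁ ∈ range R, om (((a + Q - 1) % Q) * R + z₁) (b' * R + y) := by
        intro y _
        exact rgp_shift hQ hR (fun z => om z (b' * R + y)) (fun z => h0 _ _) ha (mem_range.1 hd1)
      refine (sum_le_sum s3).trans ?_
      rw [sum_add_distrib, sum_comm, sum_comm (s := range R) (t := range R)
        (f := fun y z₁ => om (((a + Q - 1) % Q) * R + z₁) (b' * R + y))]
      have e1 := hB a ha b' hb'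
      have e2 := hB _ ha1 b' hb'
      linarith
    have e1 := s2 b hb
    have e2 := s2 _ hb1
    linarith
  have expand : ∑ z₁ ∈ range R, ∑ z₂ ∈ range R, opl (q ^ t) om (a * R + z₁) (b * R + z₂) =
      (R:ℝ) * R + 2 * ∑ d1 ∈ range 2, ∑ d2 ∈ range 2, ∑ z₁ ∈ range R, ∑ z₂ ∈ range R,
        om ((a * R + z₁ + q ^ t - d1) % q ^ t) ((b * R + z₂ + q ^ t - d2) % q ^ t) := by
    unfold opl
    simp only [sum_add_distrib, sum_const, card_range, nsmul_eq_mul, mul_one, ← mul_sum]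
    congr 2
    simp only [sum_range_succ, sum_range_zero, zero_add, sum_add_distrib]
  rw [expand]
  have hsum : ∑ d1 ∈ range 2, ∑ d2 ∈ range 2, ∑ z₁ ∈ range R, ∑ z₂ ∈ range R,
        om ((a * R + z₁ + q ^ t - d1) % q ^ t) ((b * R + z₂ + q ^ t - d2) % q ^ t) ≤ 16 * W := by
    refine (sum_le_sum fun d1 hd1 => sum_le_sum fun d2 hd2 => key d1 hd1 d2 hd2).trans ?_
    simp only [sum_const, card_range, nsmul_eq_mul]
    push_cast
    linarith
  have hRR : (R:ℝ) * R ≤ 1 * ((q:ℝ) ^ i) ^ kap * ((q:ℝ) ^ (t - i)) ^ 2 := by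
    have e : (R:ℝ) = (q:ℝ) ^ (t - i) := by rw [hRd]; push_cast; rfl
    rw [e, one_mul]
    have : 0 ≤ ((q:ℝ) ^ (t - i)) ^ 2 := by positivity
    nlinarith
  calc (R:ℝ) * R + 2 * _ ≤ 1 * ((q:ℝ) ^ i) ^ kap * ((q:ℝ) ^ (t - i)) ^ 2 + 2 * (16 * W) := by
        linarith
    _ = (1 + 32 * C) * ((q:ℝ) ^ i) ^ kap * ((q:ℝ) ^ (t - i)) ^ 2 := by rw [hW]; ring

end Pool.FD
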